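import Pool.Agent.H629.AF.Nat

/-!
# The Bourbaki-Witt theorem inside a model
-/

set_option autoImplicit false
set_option linter.unusedTactic false
set_option linter.unreachableTactic false

namespace Pool.Agent.H629.AF

open Pool.Agent.Helper672.ZFA FirstOrder FirstOrder.Language

universe u

variable {M : Type u} [L.Structure M] [hM : IsModel M] {X : Type u} [ITy M X]

/-- Least upper bounds. -/
def Lub (le : X → X → Prop) (C : IPow M X) (s : X) : Prop :=
  (∀ x, x ∈ C → le x s) ∧ ∀ v, (∀ x, x ∈ C → le x v) → le s v

/-- Chains. -/
def Chn (le : X → X → Prop) (C : IPow M X) : Prop :=
  ∀ x, x ∈ C → ∀ y, y ∈ C → le x y ∨ le y x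

/-- Admissible sets. -/
def Adm (le : X → X → Prop) (f : X → X) (x0 : X) (A : IPow M X) : Prop :=
  x0 ∈ A ∧ (∀ x, x ∈ A → f x ∈ A) ∧ ∀ C : IPow M X, (∃ x, x ∈ C) → (∀ x, x ∈ C → x ∈ A) →
    Chn le C → ∀ s, Lub le C s → s ∈ A

theorem Int.lub {γ : Type u} [ITy M γ] {le : X → X → Prop}
    (hle : Int M (fun q : X × X => le q.1 q.2)) {C : γ → IPow M X} {s : γ → X} (hC : IntF M C)
    (hs : IntF M s) : Int M (fun c => Lub le (C c) (s c)) := by
  unfold Lub
  exact (by repeat' (first | with_reducible exact IntF.fst' | with_reducible exact IntF.snd' | with_reducible exact IntF.id | with_reducible exact IntF.const _ | with_reducible exact Int.const _ | with_reducible assumption | with_reducible apply Int.and | with_reducible apply Int.or | with_reducible apply Int.not | with_reducible apply Int.imp | with_reducible apply Int.iff | with_reducible apply Int.all | with_reducible apply Int.ex | with_reducible apply Int.ne | with_reducible apply Int.eq | with_reducible apply Int.mem | with_reducible apply Int.ltN | with_reducible apply Int.leN | with_reducible apply Int.subset | with_reducible apply Int.ev | with_reducible apply Int.agr | with_reducible apply Int.eqk | with_reducible apply Int.fil | with_reducible apply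 Int.ult | with_reducible apply Int.addv | with_reducible apply Int.lub | with_reducible apply Int.adm | with_reducible apply Int.chain | with_reducible apply IntF.fst | with_reducible apply IntF.snd | with_reducible apply IntF.val | with_reducible apply IntF.succ | with_reducible apply IntF.plus | with_reducible apply IntF.iadd | with_reducible apply IntF.sadd | with_reducible apply IntF.pair | with_reducible apply IntF.act | with_reducible apply IntF.orb | with_reducible apply IntF.lexmax | with_reducible apply IntF.gen | with_reducible apply IntF.psum | with_reducible apply IntF.app | with_reducible apply IntF.ite | with_reducible apply IntF.sep | with_reducible apply IntF.agrs | with_reducible apply IntF.da | with_reducible apply IntF.step | with_reducible ((refine Int.comp₂ ?_ ?_ ?_); assumption) | with_reducible ((refine Int.comp ?_ ?_); assumption) | with_reducible ((refine IntF.comp₂ ?_ ?_ ?_); assumption) | with_reducible ((refine IntF.comp ?_ ?_); assumption)))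

theorem Int.chain {γ : Type u} [ITy M γ] {le : X → X → Prop}
    (hle : Int M (fun q : X × X => le q.1 q.2)) {C : γ → IPow M X} (hC : IntF M C) :
    Int M (fun c => Chn le (C c)) := by
  unfold Chn
  exact (by repeat' (first | with_reducible exact IntF.fst' | with_reducible exact IntF.snd' | with_reducible exact IntF.id | with_reducible exact IntF.const _ | with_reducible exact Int.const _ | with_reducible assumption | with_reducible apply Int.and | with_reducible apply Int.or | with_reducible apply Int.not | with_reducible apply Int.imp | with_reducible apply Int.iff | with_reducible apply Int.all | with_reducible apply Int.ex | with_reducible apply Int.ne | with_reducible apply Int.eq | with_reducible apply Int.mem | with_reducible apply Int.ltN | with_reducible apply Int.leN | with_reducible apply Int.subset | with_reducible apply Int.ev | with_reducible apply Int.agr | with_reducible apply Int.eqk | with_reducible apply Int.fil | with_reducible apply Int.ult | with_reducible apply Int.addv | with_reducible apply Int.lub | with_reducible apply Int.adm | with_reducible apply Int.chain | with_reducible apply IntF.fst | with_reducible apply IntF.snd | with_reducible apply IntF.val | with_reducible apply IntF.succ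 | with_reducible apply IntF.plus | with_reducible apply IntF.iadd | with_reducible apply IntF.sadd | with_reducible apply IntF.pair | with_reducible apply IntF.act | with_reducible apply IntF.orb | with_reducible apply IntF.lexmax | with_reducible apply IntF.gen | with_reducible apply IntF.psum | with_reducible apply IntF.app | with_reducible apply IntF.ite | with_reducible apply IntF.sep | with_reducible apply IntF.agrs | with_reducible apply IntF.da | with_reducible apply IntF.step | with_reducible ((refine Int.comp₂ ?_ ?_ ?_); assumption) | with_reducible ((refine Int.comp ?_ ?_); assumption) | with_reducible ((refine IntF.comp₂ ?_ ?_ ?_); assumption) | with_reducible ((refine IntF.comp ?_ ?_); assumption)))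

theorem Int.adm {γ : Type u} [ITy M γ] {le : X → X → Prop}
    (hle : Int M (fun q : X × X => le q.1 q.2)) {f : X → X} (hf : IntF M f) {x0 : X}
    {A : γ → IPow M X} (hA : IntF M A) : Int M (fun c => Adm le f x0 (A c)) := by
  unfold Adm
  exact (by repeat' (first | with_reducible exact IntF.fst' | with_reducible exact IntF.snd' | with_reducible exact IntF.id | with_reducible exact IntF.const _ | with_reducible exact Int.const _ | with_reducible assumption | with_reducible apply Int.and | with_reducible apply Int.or | with_reducible apply Int.not | with_reducible apply Int.imp | with_reducible apply Int.iff | with_reducible apply Int.all | with_reducible apply Int.ex | with_reducible apply Int.ne | with_reducible apply Int.eq | with_reducible apply Int.mem | with_reducible apply Int.ltN | with_reducible apply Int.leN | with_reducible apply Int.subset | with_reducible apply Int.ev | with_reducible apply Int.agr | with_reducible apply Int.eqk | with_reducible apply Int.fil | with_reducible apply Int.ult | with_reducible apply Int.addv | with_reducible apply Int.lub | with_reducible apply Int.adm | with_reducible apply Int.chain | with_reducible apply IntF.fst | with_reducible apply IntF.snd | with_reducible apply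 IntF.val | with_reducible apply IntF.succ | with_reducible apply IntF.plus | with_reducible apply IntF.iadd | with_reducible apply IntF.sadd | with_reducible apply IntF.pair | with_reducible apply IntF.act | with_reducible apply IntF.orb | with_reducible apply IntF.lexmax | with_reducible apply IntF.gen | with_reducible apply IntF.psum | with_reducible apply IntF.app | with_reducible apply IntF.ite | with_reducible apply IntF.sep | with_reducible apply IntF.agrs | with_reducible apply IntF.da | with_reducible apply IntF.step | with_reducible ((refine Int.comp₂ ?_ ?_ ?_); assumption) | with_reducible ((refine Int.comp ?_ ?_); assumption) | with_reducible ((refine IntF.comp₂ ?_ ?_ ?_); assumption) | with_reducible ((refine IntF.comp ?_ ?_); assumption)))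

/-- The Bourbaki-Witt theorem: an inflationary function on a partial order in which all nonempty
chains have least upper bounds has a fixed point, and this fixed point has all properties which
the starting point has and which are preserved by the function and by suprema of chains. -/
theorem bourbaki_witt {le : X → X → Prop} (hle : Int M (fun q : X × X => le q.1 q.2))
    (refl : ∀ x, le x x) (trans : ∀ x y z, le x y → le y z → le x z)
    (antisymm : ∀ x y, le x y → le y x → x = y) {f : X → X} (hf : IntF M f)
    (infl : ∀ x, le x (f x)) (x0 : X)
    (sup : ∀ C : IPow M X, (∃ x, x ∈ C) → Chn le C → ∃ s, Lub le C s)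
    {Q : X → Prop} (hQ : Int M Q) (hQ0 : Q x0) (hQf : ∀ x, Q x → Q (f x))
    (hQs : ∀ C : IPow M X, (∃ x, x ∈ C) → (∀ x, x ∈ C → Q x) → Chn le C →
      ∀ s, Lub le C s → Q s) : ∃ x, Q x ∧ f x = x := by
  have iT : Int M (fun x : X => ∀ A : IPow M X, Adm le f x0 A → x ∈ A) := (by repeat' (first | with_reducible exact IntF.fst' | with_reducible exact IntF.snd' | with_reducible exact IntF.id | with_reducible exact IntF.const _ | with_reducible exact Int.const _ | with_reducible assumption | with_reducible apply Int.and | with_reducible apply Int.or | with_reducible apply Int.not | with_reducible apply Int.imp | with_reducible apply Int.iff | with_reducible apply Int.all | with_reducible apply Int.ex | with_reducible apply Int.ne | with_reducible apply Int.eq | with_reducible apply Int.mem | with_reducible apply Int.ltN | with_reducible apply Int.leN | with_reducible apply Int.subset | with_reducible apply Int.ev | with_reducible apply Int.agr | with_reducible apply Int.eqk | with_reducible apply Int.fil | with_reducible apply Int.ult | with_reducible apply Int.addv | with_reducible apply Int.lub | with_reducible apply Int.adm | with_reducible apply Int.chain | with_reducible apply IntF.fst | with_reducible apply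 IntF.snd | with_reducible apply IntF.val | with_reducible apply IntF.succ | with_reducible apply IntF.plus | with_reducible apply IntF.iadd | with_reducible apply IntF.sadd | with_reducible apply IntF.pair | with_reducible apply IntF.act | with_reducible apply IntF.orb | with_reducible apply IntF.lexmax | with_reducible apply IntF.gen | with_reducible apply IntF.psum | with_reducible apply IntF.app | with_reducible apply IntF.ite | with_reducible apply IntF.sep | with_reducible apply IntF.agrs | with_reducible apply IntF.da | with_reducible apply IntF.step | with_reducible ((refine Int.comp₂ ?_ ?_ ?_); assumption) | with_reducible ((refine Int.comp ?_ ?_); assumption) | with_reducible ((refine IntF.comp₂ ?_ ?_ ?_); assumption) | with_reducible ((refine IntF.comp ?_ ?_); assumption)))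
  obtain ⟨T, hT⟩ : ∃ T : IPow M X, ∀ x, x ∈ T ↔ ∀ A : IPow M X, Adm le f x0 A → x ∈ A :=
    ⟨sep M _, fun x => mem_sep iT⟩
  have aT : Adm le f x0 T := by
    refine ⟨(hT _).2 fun A hA => hA.1, fun x hx => (hT _).2 fun A hA => hA.2.1 x ((hT x).1 hx A hA),
      fun C hC hCT hch s hs => (hT _).2 fun A hA => hA.2.2 C hC (fun x hx => ?_) hch s hs⟩
    exact (hT x).1 (hCT x hx) A hA
  -- it is enough to consider a predicate
  have ind : ∀ {p : X → Prop}, Int M p → p x0 → (∀ x, x ∈ T → p x → p (f x)) →
      (∀ C : IPow M X, (∃ x, x ∈ C) → (∀ x, x ∈ C → x ∈ T) → (∀ x, x ∈ C → p x) → Chn le C →
        ∀ s, s ∈ T → Lub le C s → p s) → ∀ x, x ∈ T → p x := by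
    intro p hp h0 h1 h2 x hx
    have ip : Int M (fun x : X => x ∈ T ∧ p x) := (by repeat' (first | with_reducible exact IntF.fst' | with_reducible exact IntF.snd' | with_reducible exact IntF.id | with_reducible exact IntF.const _ | with_reducible exact Int.const _ | with_reducible assumption | with_reducible apply Int.and | with_reducible apply Int.or | with_reducible apply Int.not | with_reducible apply Int.imp | with_reducible apply Int.iff | with_reducible apply Int.all | with_reducible apply Int.ex | with_reducible apply Int.ne | with_reducible apply Int.eq | with_reducible apply Int.mem | with_reducible apply Int.ltN | with_reducible apply Int.leN | with_reducible apply Int.subset | with_reducible apply Int.ev | with_reducible apply Int.agr | with_reducible apply Int.eqk | with_reducible apply Int.fil | with_reducible apply Int.ult | with_reducible apply Int.addv | with_reducible apply Int.lub | with_reducible apply Int.adm | with_reducible apply Int.chain | with_reducible apply IntF.fst | with_reducible apply IntF.snd | with_reducible apply IntF.val | with_reducible apply IntF.succ | with_reducible apply IntF.plus | with_reducible apply IntF.iadd | with_reducible apply IntF.sadd | with_reducible apply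 IntF.pair | with_reducible apply IntF.act | with_reducible apply IntF.orb | with_reducible apply IntF.lexmax | with_reducible apply IntF.gen | with_reducible apply IntF.psum | with_reducible apply IntF.app | with_reducible apply IntF.ite | with_reducible apply IntF.sep | with_reducible apply IntF.agrs | with_reducible apply IntF.da | with_reducible apply IntF.step | with_reducible ((refine Int.comp₂ ?_ ?_ ?_); assumption) | with_reducible ((refine Int.comp ?_ ?_); assumption) | with_reducible ((refine IntF.comp₂ ?_ ?_ ?_); assumption) | with_reducible ((refine IntF.comp ?_ ?_); assumption)))
    have h3 : x ∈ sep M (fun x : X => x ∈ T ∧ p x) := by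
      refine (hT x).1 hx _ ⟨(mem_sep ip).2 ⟨aT.1, h0⟩, fun y hy => ?_, fun C hC hCT hch s hs => ?_⟩
      · rw [mem_sep ip] at hy ⊢
        exact ⟨aT.2.1 y hy.1, h1 y hy.1 hy.2⟩
      · rw [mem_sep ip]
        have h4 : ∀ x, x ∈ C → x ∈ T := fun x hx => ((mem_sep ip).1 (hCT x hx)).1
        have h5 : s ∈ T := aT.2.2 C hC h4 hch s hs
        exact ⟨h5, h2 C hC h4 (fun x hx => ((mem_sep ip).1 (hCT x hx)).2) hch s h5 hs⟩
    exact ((mem_sep ip).1 h3).2
  have hmin : ∀ x, x ∈ T → le x0 x := by
    refine ind (by repeat' (first | with_reducible exact IntF.fst' | with_reducible exact IntF.snd' | with_reducible exact IntF.id | with_reducible exact IntF.const _ | with_reducible exact Int.const _ | with_reducible assumption | with_reducible apply Int.and | with_reducible apply Int.or | with_reducible apply Int.not | with_reducible apply Int.imp | with_reducible apply Int.iff | with_reducible apply Int.all | with_reducible apply Int.ex | with_reducible apply Int.ne | with_reducible apply Int.eq | with_reducible apply Int.mem | with_reducible apply Int.ltN | with_reducible apply Int.leN | with_reducible apply Int.subset | with_reducible apply Int.ev | with_reducible apply Int.agr | with_reducible apply Int.eqk | with_reducible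 apply Int.fil | with_reducible apply Int.ult | with_reducible apply Int.addv | with_reducible apply Int.lub | with_reducible apply Int.adm | with_reducible apply Int.chain | with_reducible apply IntF.fst | with_reducible apply IntF.snd | with_reducible apply IntF.val | with_reducible apply IntF.succ | with_reducible apply IntF.plus | with_reducible apply IntF.iadd | with_reducible apply IntF.sadd | with_reducible apply IntF.pair | with_reducible apply IntF.act | with_reducible apply IntF.orb | with_reducible apply IntF.lexmax | with_reducible apply IntF.gen | with_reducible apply IntF.psum | with_reducible apply IntF.app | with_reducible apply IntF.ite | with_reducible apply IntF.sep | with_reducible apply IntF.agrs | with_reducible apply IntF.da | with_reducible apply IntF.step | with_reducible ((refine Int.comp₂ ?_ ?_ ?_); assumption) | with_reducible ((refine Int.comp ?_ ?_); assumption) | with_reducible ((refine IntF.comp₂ ?_ ?_ ?_); assumption) | with_reducible ((refine IntF.comp ?_ ?_); assumption))) (refl x0) (fun x _ h => trans _ _ _ h (infl x)) ?_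
    rintro C ⟨x, hx⟩ - h - s - hs
    exact trans _ _ _ (h x hx) (hs.1 x hx)
  let Ext : X → Prop := fun c => ∀ x, x ∈ T → le x c → x ≠ c → le (f x) c
  have iExt : Int M Ext := by
    show Int M (fun c => ∀ x, x ∈ T → le x c → x ≠ c → le (f x) c)
    exact (by repeat' (first | with_reducible exact IntF.fst' | with_reducible exact IntF.snd' | with_reducible exact IntF.id | with_reducible exact IntF.const _ | with_reducible exact Int.const _ | with_reducible assumption | with_reducible apply Int.and | with_reducible apply Int.or | with_reducible apply Int.not | with_reducible apply Int.imp | with_reducible apply Int.iff | with_reducible apply Int.all | with_reducible apply Int.ex | with_reducible apply Int.ne | with_reducible apply Int.eq | with_reducible apply Int.mem | with_reducible apply Int.ltN | with_reducible apply Int.leN | with_reducible apply Int.subset | with_reducible apply Int.ev | with_reducible apply Int.agr | with_reducible apply Int.eqk | with_reducible apply Int.fil | with_reducible apply Int.ult | with_reducible apply Int.addv | with_reducible apply Int.lub | with_reducible apply Int.adm | with_reducible apply Int.chain | with_reducible apply IntF.fst | with_reducible apply IntF.snd | with_reducible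 apply IntF.val | with_reducible apply IntF.succ | with_reducible apply IntF.plus | with_reducible apply IntF.iadd | with_reducible apply IntF.sadd | with_reducible apply IntF.pair | with_reducible apply IntF.act | with_reducible apply IntF.orb | with_reducible apply IntF.lexmax | with_reducible apply IntF.gen | with_reducible apply IntF.psum | with_reducible apply IntF.app | with_reducible apply IntF.ite | with_reducible apply IntF.sep | with_reducible apply IntF.agrs | with_reducible apply IntF.da | with_reducible apply IntF.step | with_reducible ((refine Int.comp₂ ?_ ?_ ?_); assumption) | with_reducible ((refine Int.comp ?_ ?_); assumption) | with_reducible ((refine IntF.comp₂ ?_ ?_ ?_); assumption) | with_reducible ((refine IntF.comp ?_ ?_); assumption)))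
  have hM : ∀ c, c ∈ T → Ext c → ∀ x, x ∈ T → le x c ∨ le (f c) x := by
    intro c hcT hc
    refine ind (by repeat' (first | with_reducible exact IntF.fst' | with_reducible exact IntF.snd' | with_reducible exact IntF.id | with_reducible exact IntF.const _ | with_reducible exact Int.const _ | with_reducible assumption | with_reducible apply Int.and | with_reducible apply Int.or | with_reducible apply Int.not | with_reducible apply Int.imp | with_reducible apply Int.iff | with_reducible apply Int.all | with_reducible apply Int.ex | with_reducible apply Int.ne | with_reducible apply Int.eq | with_reducible apply Int.mem | with_reducible apply Int.ltN | with_reducible apply Int.leN | with_reducible apply Int.subset | with_reducible apply Int.ev | with_reducible apply Int.agr | with_reducible apply Int.eqk | with_reducible apply Int.fil | with_reducible apply Int.ult | with_reducible apply Int.addv | with_reducible apply Int.lub | with_reducible apply Int.adm | with_reducible apply Int.chain | with_reducible apply IntF.fst | with_reducible apply IntF.snd | with_reducible apply IntF.val | with_reducible apply IntF.succ | with_reducible apply IntF.plus | with_reducible apply IntF.iadd | with_reducible apply IntF.sadd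 | with_reducible apply IntF.pair | with_reducible apply IntF.act | with_reducible apply IntF.orb | with_reducible apply IntF.lexmax | with_reducible apply IntF.gen | with_reducible apply IntF.psum | with_reducible apply IntF.app | with_reducible apply IntF.ite | with_reducible apply IntF.sep | with_reducible apply IntF.agrs | with_reducible apply IntF.da | with_reducible apply IntF.step | with_reducible ((refine Int.comp₂ ?_ ?_ ?_); assumption) | with_reducible ((refine Int.comp ?_ ?_); assumption) | with_reducible ((refine IntF.comp₂ ?_ ?_ ?_); assumption) | with_reducible ((refine IntF.comp ?_ ?_); assumption))) (Or.inl (hmin c hcT)) ?_ ?_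
    · rintro x hxT (h | h)
      · by_cases hxc : x = c
        · rw [hxc]
          exact Or.inr (refl _)
        · exact Or.inl (hc x hxT h hxc)
      · exact Or.inr (trans _ _ _ h (infl x))
    · intro C hC hCT hCp hch s hsT hs
      by_cases hall : ∀ x, x ∈ C → le x c
      · exact Or.inl (hs.2 c hall)
      · push Not at hall
        obtain ⟨x, hx, hxc⟩ := hall
        exact Or.inr (trans _ _ _ ((hCp x hx).resolve_left hxc) (hs.1 x hx))
  have hExt : ∀ c, c ∈ T → Ext c := by
    refine ind iExt ?_ ?_ ?_
    · intro x hxT hx hne
      exact absurd (antisymm _ _ hx (hmin x hxT)) hne
    · intro c hcT hc x hxT hx hne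
      rcases hM c hcT hc x hxT with h | h
      · by_cases hxc : x = c
        · rw [hxc]
          exact refl _
        · exact trans _ _ _ (hc x hxT h hxc) (infl c)
      · exact absurd (antisymm _ _ hx h) hne
    · intro C hC hCT hCp hch s hsT hs x hxT hx hne
      by_cases hall : ∀ c, c ∈ C → le (f c) x
      · exact absurd (antisymm _ _ hx (hs.2 x fun c hc => trans _ _ _ (infl c) (hall c hc))) hne
      · push Not at hall
        obtain ⟨c, hc, hcx⟩ := hall
        have h1 := (hM c (hCT c hc) (hCp c hc) x hxT).resolve_right hcx
        by_cases hxc : x = c
        · rcases hM c (hCT c hc) (hCp c hc) s hsT with h2 | h2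
          · rw [← hxc] at h2
            exact absurd (antisymm _ _ hx h2) hne
          · rwa [hxc]
        · exact trans _ _ _ (hCp c hc x hxT h1 hxc) (hs.1 c hc)
  have hchn : Chn le T := by
    intro x hx y hy
    rcases hM y hy (hExt y hy) x hx with h | h
    · exact Or.inl h
    · exact Or.inr (trans _ _ _ (infl y) h)
  obtain ⟨s, hs⟩ := sup T ⟨x0, aT.1⟩ hchn
  have hsT : s ∈ T := aT.2.2 T ⟨x0, aT.1⟩ (fun x hx => hx) hchn s hs
  refine ⟨s, ?_, antisymm _ _ (hs.1 _ (aT.2.1 s hsT)) (infl s)⟩
  refine ind hQ hQ0 (fun x _ h => hQf x h) ?_ s hsT
  intro C hC _ hCQ hch s _ hs
  exact hQs C hC hCQ hch s hs

end Pool.Agent.H629.AF
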