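import Pool.Graph.R_seed8.Helper672.SIK.Plain

/-!
# Additive filters in the language of set theory

All notions are stated for a structure `M` for the language of set theory, in terms of the
membership relation `Mem` of `M`.
-/

set_option autoImplicit false

namespace Pool.Agent.H629.AF

open Pool.Agent.Helper672.Plain FirstOrder

universe u

variable {M : Type u} [LSet.Structure M]

/-- `e` is the empty set, the number `0`. -/
def IsEmptySet (e : M) : Prop := ∀ z, ¬ Mem z e

/-- `s` is the successor `n ∪ {n}` of `n`. -/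
def IsSucc (s n : M) : Prop := ∀ z, Mem z s ↔ Mem z n ∨ z = n

/-- `i` contains `0` and is closed under successors. -/
def IsInductive (i : M) : Prop :=
  (∃ e, Mem e i ∧ IsEmptySet e) ∧ ∀ n, Mem n i → ∃ s, Mem s i ∧ IsSucc s n

/-- `n` is a natural number of `M`: it is in all inductive sets. -/
def IsNat (n : M) : Prop := ∀ i, IsInductive i → Mem n i

/-- `n` is a positive natural number of `M`, that is, `M` satisfies `n ∈ ℕ = {1, 2, 3, …}`. -/
def IsPos (n : M) : Prop := IsNat n ∧ ∃ z, Mem z n

/-- The triple `((m, n), k)` is in `s`. -/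
def TripleIn (m n k s : M) : Prop := ∃ p q, IsOrdPair p m n ∧ IsOrdPair q p k ∧ Mem q s

/-- `m + n = k` holds in `M`: the triple `((m, n), k)` is in every set which contains all
`((a, 0), a)` for natural numbers `a`, and with `((a, b), c)` also contains
`((a, b + 1), c + 1)`. -/
def IsSum (m n k : M) : Prop :=
  ∀ s : M, (∀ a e, IsNat a → IsEmptySet e → TripleIn a e a s) →
    (∀ a b c b' c', TripleIn a b c s → IsSucc b' b → IsSucc c' c → TripleIn a b' c' s) →
    TripleIn m n k s

/-- `A` is a set of positive natural numbers. -/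
def IsSub (A : M) : Prop := ∀ z, Mem z A → IsPos z

/-- In `M`, `F` is a filter on `ℕ = {1, 2, 3, …}`: a family of nonempty subsets of `ℕ` that
contains `ℕ` and is closed under supersets and under intersections of two members. -/
structure IsFilter (F : M) : Prop where
  sub : ∀ A, Mem A F → IsSub A
  nonempty : ∀ A, Mem A F → ∃ z, Mem z A
  univ : ∃ A, Mem A F ∧ ∀ z, Mem z A ↔ IsPos z
  superset : ∀ A C, Mem A F → (∀ z, Mem z A → Mem z C) → IsSub C → Mem C F
  inter : ∀ A C, Mem A F → Mem C F → ∃ D, Mem D F ∧ ∀ z, Mem z D ↔ Mem z A ∧ Mem z C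

/-- `F` is a subset of `G`. -/
def IsSubset (F G : M) : Prop := ∀ A, Mem A F → Mem A G

/-- In `M`, `V` is an ultrafilter on `ℕ`: a filter maximal under inclusion. -/
def IsUltrafilter (V : M) : Prop := IsFilter V ∧ ∀ W, IsFilter W → IsSubset V W → W = V

/-- `D` is the set `A - n` of all `m` in `ℕ` with `m + n ∈ A`. -/
def IsShift (A n D : M) : Prop := ∀ m, Mem m D ↔ IsPos m ∧ ∃ k, IsSum m n k ∧ Mem k A

/-- `A` is in the pseudo-sum of `F` and `G`: the set of all `n` in `ℕ` with `A - n ∈ G` is
in `F`. -/
def InPseudoSum (A F G : M) : Prop :=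
  ∃ T, Mem T F ∧ ∀ n, Mem n T ↔ IsPos n ∧ ∃ D, IsShift A n D ∧ Mem D G

/-- In `M`, the filter `F` is additive: it is contained in the pseudo-sum of `F` and `V` for
every ultrafilter `V` that contains `F`. -/
def IsAdditive (F : M) : Prop :=
  ∀ V, IsUltrafilter V → IsSubset F V → ∀ A, Mem A F → InPseudoSum A F V

variable (M) in
/-- `M` satisfies the statement (E): for every additive filter `F` on `ℕ` and every `B ⊆ ℕ` there
is an additive filter `G ⊇ F` with `B ∈ G` or `ℕ \ B ∈ G`. -/
def StatementE : Prop :=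
  ∀ F : M, IsFilter F → IsAdditive F → ∀ B : M, IsSub B →
    ∃ G : M, IsFilter G ∧ IsAdditive G ∧ IsSubset F G ∧
      (Mem B G ∨ ∃ C, Mem C G ∧ ∀ z, Mem z C ↔ IsPos z ∧ ¬ Mem z B)

end Pool.Agent.H629.AF
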