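import Pool.Agent.H629.AF.BW

/-!
# Filters and ultrafilters on the positive natural numbers of a model
-/

set_option autoImplicit false
set_option linter.unusedTactic false
set_option linter.unreachableTactic false

namespace Pool.Agent.H629.AF

open Pool.Agent.Helper672.ZFA FirstOrder FirstOrder.Language

universe u

variable {M : Type u} [L.Structure M] [hM : IsModel M]

variable (M) in
/-- Families of sets of positive natural numbers. -/
abbrev Fam : Type u := IPow M (IPow M (Pos M))

variable (M) in
/-- Sets of natural numbers. -/
abbrev Sq : Type u := IPow M (INat M)

/-- `p` holds on a member of `V`. -/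
def Ev (V : Fam M) (p : Pos M → Prop) : Prop := ∃ A, A ∈ V ∧ ∀ m, m ∈ A → p m

theorem Int.ev {γ : Type u} [ITy M γ] {V : γ → Fam M} {p : γ → Pos M → Prop} (hV : IntF M V)
    (hp : Int M (fun q : γ × Pos M => p q.1 q.2)) : Int M (fun c => Ev (V c) (p c)) := by
  unfold Ev
  exact (by repeat' (first | with_reducible exact IntF.fst' | with_reducible exact IntF.snd' | with_reducible exact IntF.id | with_reducible exact IntF.const _ | with_reducible exact Int.const _ | with_reducible assumption | with_reducible apply Int.and | with_reducible apply Int.or | with_reducible apply Int.not | with_reducible apply Int.imp | with_reducible apply Int.iff | with_reducible apply Int.all | with_reducible apply Int.ex | with_reducible apply Int.ne | with_reducible apply Int.eq | with_reducible apply Int.mem | with_reducible apply Int.ltN | with_reducible apply Int.leN | with_reducible apply Int.subset | with_reducible apply Int.ev | with_reducible apply Int.agr | with_reducible apply Int.eqk | with_reducible apply Int.fil | with_reducible apply Int.ult | with_reducible apply Int.addv | with_reducible apply Int.lub | with_reducible apply Int.adm | with_reducible apply Int.chain | with_reducible apply IntF.fst | with_reducible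 apply IntF.snd | with_reducible apply IntF.val | with_reducible apply IntF.succ | with_reducible apply IntF.plus | with_reducible apply IntF.iadd | with_reducible apply IntF.sadd | with_reducible apply IntF.pair | with_reducible apply IntF.act | with_reducible apply IntF.orb | with_reducible apply IntF.lexmax | with_reducible apply IntF.gen | with_reducible apply IntF.psum | with_reducible apply IntF.app | with_reducible apply IntF.ite | with_reducible apply IntF.sep | with_reducible apply IntF.agrs | with_reducible apply IntF.da | with_reducible apply IntF.step | with_reducible ((refine Int.comp₂ ?_ ?_ ?_); assumption) | with_reducible ((refine Int.comp ?_ ?_); assumption) | with_reducible ((refine IntF.comp₂ ?_ ?_ ?_); assumption) | with_reducible ((refine IntF.comp ?_ ?_); assumption)))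

/-- Filters. -/
def Fil (F : Fam M) : Prop :=
  (∃ A, A ∈ F) ∧ (∀ A, A ∈ F → ∃ m, m ∈ A) ∧
    (∀ A C, A ∈ F → (∀ m, m ∈ A → m ∈ C) → C ∈ F) ∧
    ∀ A C, A ∈ F → C ∈ F → ∃ D, D ∈ F ∧ ∀ m, m ∈ D → m ∈ A ∧ m ∈ C

theorem Int.fil {γ : Type u} [ITy M γ] {F : γ → Fam M} (hF : IntF M F) :
    Int M (fun c => Fil (F c)) := by
  unfold Fil
  exact (by repeat' (first | with_reducible exact IntF.fst' | with_reducible exact IntF.snd' | with_reducible exact IntF.id | with_reducible exact IntF.const _ | with_reducible exact Int.const _ | with_reducible assumption | with_reducible apply Int.and | with_reducible apply Int.or | with_reducible apply Int.not | with_reducible apply Int.imp | with_reducible apply Int.iff | with_reducible apply Int.all | with_reducible apply Int.ex | with_reducible apply Int.ne | with_reducible apply Int.eq | with_reducible apply Int.mem | with_reducible apply Int.ltN | with_reducible apply Int.leN | with_reducible apply Int.subset | with_reducible apply Int.ev | with_reducible apply Int.agr | with_reducible apply Int.eqk | with_reducible apply Int.fil | with_reducible apply Int.ult | with_reducible apply Int.addv | with_reducible apply Int.lub | with_reducible apply Int.adm | with_reducible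 apply Int.chain | with_reducible apply IntF.fst | with_reducible apply IntF.snd | with_reducible apply IntF.val | with_reducible apply IntF.succ | with_reducible apply IntF.plus | with_reducible apply IntF.iadd | with_reducible apply IntF.sadd | with_reducible apply IntF.pair | with_reducible apply IntF.act | with_reducible apply IntF.orb | with_reducible apply IntF.lexmax | with_reducible apply IntF.gen | with_reducible apply IntF.psum | with_reducible apply IntF.app | with_reducible apply IntF.ite | with_reducible apply IntF.sep | with_reducible apply IntF.agrs | with_reducible apply IntF.da | with_reducible apply IntF.step | with_reducible ((refine Int.comp₂ ?_ ?_ ?_); assumption) | with_reducible ((refine Int.comp ?_ ?_); assumption) | with_reducible ((refine IntF.comp₂ ?_ ?_ ?_); assumption) | with_reducible ((refine IntF.comp ?_ ?_); assumption)))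

theorem Ev.mono {V : Fam M} {p q : Pos M → Prop} (h : Ev V p) (hpq : ∀ m, p m → q m) : Ev V q := by
  obtain ⟨A, hA, h1⟩ := h
  exact ⟨A, hA, fun m hm => hpq m (h1 m hm)⟩

theorem Ev.sub {V W : Fam M} {p : Pos M → Prop} (h : Ev V p) (hVW : V ⊆ W) : Ev W p := by
  obtain ⟨A, hA, h1⟩ := h
  exact ⟨A, hVW A hA, h1⟩

theorem Fil.and {V : Fam M} (hV : Fil V) {p q : Pos M → Prop} (hp : Ev V p) (hq : Ev V q) :
    Ev V (fun m => p m ∧ q m) := by
  obtain ⟨A, hA, h1⟩ := hp
  obtain ⟨C, hC, h2⟩ := hq
  obtain ⟨D, hD, h3⟩ := hV.2.2.2 A C hA hC
  exact ⟨D, hD, fun m hm => ⟨h1 m (h3 m hm).1, h2 m (h3 m hm).2⟩⟩

theorem Fil.ex {V : Fam M} (hV : Fil V) {p : Pos M → Prop} (hp : Ev V p) : ∃ m, p m := by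
  obtain ⟨A, hA, h1⟩ := hp
  obtain ⟨m, hm⟩ := hV.2.1 A hA
  exact ⟨m, h1 m hm⟩

theorem Fil.of_forall {V : Fam M} (hV : Fil V) {p : Pos M → Prop} (h : ∀ m, p m) : Ev V p := by
  obtain ⟨A, hA⟩ := hV.1
  exact ⟨A, hA, fun m _ => h m⟩

theorem Fil.mem_iff {V : Fam M} (hV : Fil V) {A : IPow M (Pos M)} :
    A ∈ V ↔ Ev V (fun m => m ∈ A) :=
  ⟨fun h => ⟨A, h, fun _ hm => hm⟩, fun ⟨C, hC, h⟩ => hV.2.2.1 C A hC h⟩

theorem Fil.sep_mem {V : Fam M} (hV : Fil V) {p : Pos M → Prop} (hp : Int M p) (h : Ev V p) :
    sep M p ∈ V := by
  obtain ⟨C, hC, h1⟩ := h
  exact hV.2.2.1 C _ hC fun m hm => (mem_sep hp).2 (h1 m hm)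

/-- Ultrafilters. -/
def Ult (V : Fam M) : Prop := Fil V ∧ ∀ A : IPow M (Pos M), A ∈ V ∨ Ev V (fun m => ¬ m ∈ A)

theorem Int.ult {γ : Type u} [ITy M γ] {F : γ → Fam M} (hF : IntF M F) :
    Int M (fun c => Ult (F c)) := by
  unfold Ult
  exact (by repeat' (first | with_reducible exact IntF.fst' | with_reducible exact IntF.snd' | with_reducible exact IntF.id | with_reducible exact IntF.const _ | with_reducible exact Int.const _ | with_reducible assumption | with_reducible apply Int.and | with_reducible apply Int.or | with_reducible apply Int.not | with_reducible apply Int.imp | with_reducible apply Int.iff | with_reducible apply Int.all | with_reducible apply Int.ex | with_reducible apply Int.ne | with_reducible apply Int.eq | with_reducible apply Int.mem | with_reducible apply Int.ltN | with_reducible apply Int.leN | with_reducible apply Int.subset | with_reducible apply Int.ev | with_reducible apply Int.agr | with_reducible apply Int.eqk | with_reducible apply Int.fil | with_reducible apply Int.ult | with_reducible apply Int.addv | with_reducible apply Int.lub | with_reducible apply Int.adm | with_reducible apply Int.chain | with_reducible apply IntF.fst | with_reducible apply IntF.snd | with_reducible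 apply IntF.val | with_reducible apply IntF.succ | with_reducible apply IntF.plus | with_reducible apply IntF.iadd | with_reducible apply IntF.sadd | with_reducible apply IntF.pair | with_reducible apply IntF.act | with_reducible apply IntF.orb | with_reducible apply IntF.lexmax | with_reducible apply IntF.gen | with_reducible apply IntF.psum | with_reducible apply IntF.app | with_reducible apply IntF.ite | with_reducible apply IntF.sep | with_reducible apply IntF.agrs | with_reducible apply IntF.da | with_reducible apply IntF.step | with_reducible ((refine Int.comp₂ ?_ ?_ ?_); assumption) | with_reducible ((refine Int.comp ?_ ?_); assumption) | with_reducible ((refine IntF.comp₂ ?_ ?_ ?_); assumption) | with_reducible ((refine IntF.comp ?_ ?_); assumption)))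

theorem Ult.em {V : Fam M} (hV : Ult V) {p : Pos M → Prop} (hp : Int M p) :
    Ev V p ∨ Ev V (fun m => ¬ p m) := by
  rcases hV.2 (sep M p) with h | h
  · exact Or.inl ⟨_, h, fun m hm => (mem_sep hp).1 hm⟩
  · exact Or.inr (h.mono fun m hm h' => hm ((mem_sep hp).2 h'))

theorem Ult.not_iff {V : Fam M} (hV : Ult V) {p : Pos M → Prop} (hp : Int M p) :
    ¬ Ev V p ↔ Ev V (fun m => ¬ p m) := by
  constructor
  · exact (hV.em hp).resolve_left
  · intro h h'
    obtain ⟨m, h1, h2⟩ := hV.1.ex (hV.1.and h h')
    exact h1 h2

/-- The filter generated by `F` and the sets `{m | (k, m) ∈ D}`. -/
noncomputable def gen (F : Fam M) (D : IPow M (INat M × Pos M)) : Fam M :=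
  sep M (fun A => ∃ C, C ∈ F ∧ ∃ k, ∀ m, m ∈ C → (k, m) ∈ D → m ∈ A)

theorem IntF.gen {γ : Type u} [ITy M γ] {F : γ → Fam M} {D : γ → IPow M (INat M × Pos M)}
    (hF : IntF M F) (hD : IntF M D) : IntF M (fun c => gen (F c) (D c)) := by
  unfold AF.gen
  exact (by repeat' (first | with_reducible exact IntF.fst' | with_reducible exact IntF.snd' | with_reducible exact IntF.id | with_reducible exact IntF.const _ | with_reducible exact Int.const _ | with_reducible assumption | with_reducible apply Int.and | with_reducible apply Int.or | with_reducible apply Int.not | with_reducible apply Int.imp | with_reducible apply Int.iff | with_reducible apply Int.all | with_reducible apply Int.ex | with_reducible apply Int.ne | with_reducible apply Int.eq | with_reducible apply Int.mem | with_reducible apply Int.ltN | with_reducible apply Int.leN | with_reducible apply Int.subset | with_reducible apply Int.ev | with_reducible apply Int.agr | with_reducible apply Int.eqk | with_reducible apply Int.fil | with_reducible apply Int.ult | with_reducible apply Int.addv | with_reducible apply Int.lub | with_reducible apply Int.adm | with_reducible apply Int.chain | with_reducible apply IntF.fst | with_reducible apply IntF.snd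 | with_reducible apply IntF.val | with_reducible apply IntF.succ | with_reducible apply IntF.plus | with_reducible apply IntF.iadd | with_reducible apply IntF.sadd | with_reducible apply IntF.pair | with_reducible apply IntF.act | with_reducible apply IntF.orb | with_reducible apply IntF.lexmax | with_reducible apply IntF.gen | with_reducible apply IntF.psum | with_reducible apply IntF.app | with_reducible apply IntF.ite | with_reducible apply IntF.sep | with_reducible apply IntF.agrs | with_reducible apply IntF.da | with_reducible apply IntF.step | with_reducible ((refine Int.comp₂ ?_ ?_ ?_); assumption) | with_reducible ((refine Int.comp ?_ ?_); assumption) | with_reducible ((refine IntF.comp₂ ?_ ?_ ?_); assumption) | with_reducible ((refine IntF.comp ?_ ?_); assumption)))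

theorem mem_gen {F : Fam M} {D : IPow M (INat M × Pos M)} {A : IPow M (Pos M)} :
    A ∈ gen F D ↔ ∃ C, C ∈ F ∧ ∃ k, ∀ m, m ∈ C → (k, m) ∈ D → m ∈ A := by
  unfold gen
  rw [mem_sep (by repeat' (first | with_reducible exact IntF.fst' | with_reducible exact IntF.snd' | with_reducible exact IntF.id | with_reducible exact IntF.const _ | with_reducible exact Int.const _ | with_reducible assumption | with_reducible apply Int.and | with_reducible apply Int.or | with_reducible apply Int.not | with_reducible apply Int.imp | with_reducible apply Int.iff | with_reducible apply Int.all | with_reducible apply Int.ex | with_reducible apply Int.ne | with_reducible apply Int.eq | with_reducible apply Int.mem | with_reducible apply Int.ltN | with_reducible apply Int.leN | with_reducible apply Int.subset | with_reducible apply Int.ev | with_reducible apply Int.agr | with_reducible apply Int.eqk | with_reducible apply Int.fil | with_reducible apply Int.ult | with_reducible apply Int.addv | with_reducible apply Int.lub | with_reducible apply Int.adm | with_reducible apply Int.chain | with_reducible apply IntF.fst | with_reducible apply IntF.snd | with_reducible apply IntF.val | with_reducible apply IntF.succ | with_reducible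 apply IntF.plus | with_reducible apply IntF.iadd | with_reducible apply IntF.sadd | with_reducible apply IntF.pair | with_reducible apply IntF.act | with_reducible apply IntF.orb | with_reducible apply IntF.lexmax | with_reducible apply IntF.gen | with_reducible apply IntF.psum | with_reducible apply IntF.app | with_reducible apply IntF.ite | with_reducible apply IntF.sep | with_reducible apply IntF.agrs | with_reducible apply IntF.da | with_reducible apply IntF.step | with_reducible ((refine Int.comp₂ ?_ ?_ ?_); assumption) | with_reducible ((refine Int.comp ?_ ?_); assumption) | with_reducible ((refine IntF.comp₂ ?_ ?_ ?_); assumption) | with_reducible ((refine IntF.comp ?_ ?_); assumption)))]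

theorem le_gen (F : Fam M) (D : IPow M (INat M × Pos M)) : F ⊆ gen F D :=
  fun A hA => mem_gen.2 ⟨A, hA, 0, fun _ hm _ => hm⟩

theorem ev_gen {F : Fam M} (hF : Fil F) (D : IPow M (INat M × Pos M)) (k : INat M) :
    Ev (gen F D) (fun m => (k, m) ∈ D) := by
  obtain ⟨C, hC⟩ := hF.1
  have h : Int M (fun m : Pos M => (k, m) ∈ D) := (by repeat' (first | with_reducible exact IntF.fst' | with_reducible exact IntF.snd' | with_reducible exact IntF.id | with_reducible exact IntF.const _ | with_reducible exact Int.const _ | with_reducible assumption | with_reducible apply Int.and | with_reducible apply Int.or | with_reducible apply Int.not | with_reducible apply Int.imp | with_reducible apply Int.iff | with_reducible apply Int.all | with_reducible apply Int.ex | with_reducible apply Int.ne | with_reducible apply Int.eq | with_reducible apply Int.mem | with_reducible apply Int.ltN | with_reducible apply Int.leN | with_reducible apply Int.subset | with_reducible apply Int.ev | with_reducible apply Int.agr | with_reducible apply Int.eqk | with_reducible apply Int.fil | with_reducible apply Int.ult | with_reducible apply Int.addv | with_reducible apply Int.lub | with_reducible apply Int.adm | with_reducible apply Int.chain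 | with_reducible apply IntF.fst | with_reducible apply IntF.snd | with_reducible apply IntF.val | with_reducible apply IntF.succ | with_reducible apply IntF.plus | with_reducible apply IntF.iadd | with_reducible apply IntF.sadd | with_reducible apply IntF.pair | with_reducible apply IntF.act | with_reducible apply IntF.orb | with_reducible apply IntF.lexmax | with_reducible apply IntF.gen | with_reducible apply IntF.psum | with_reducible apply IntF.app | with_reducible apply IntF.ite | with_reducible apply IntF.sep | with_reducible apply IntF.agrs | with_reducible apply IntF.da | with_reducible apply IntF.step | with_reducible ((refine Int.comp₂ ?_ ?_ ?_); assumption) | with_reducible ((refine Int.comp ?_ ?_); assumption) | with_reducible ((refine IntF.comp₂ ?_ ?_ ?_); assumption) | with_reducible ((refine IntF.comp ?_ ?_); assumption)))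
  exact ⟨sep M _, mem_gen.2 ⟨C, hC, k, fun m _ hm => (mem_sep h).2 hm⟩,
    fun m hm => (mem_sep h).1 hm⟩

theorem gen_le {F V : Fam M} {D : IPow M (INat M × Pos M)} (hV : Fil V) (hFV : F ⊆ V)
    (h : ∀ k, Ev V (fun m => (k, m) ∈ D)) : gen F D ⊆ V := by
  intro A hA
  obtain ⟨C, hC, k, h1⟩ := mem_gen.1 hA
  rw [hV.mem_iff]
  exact (hV.and (hV.mem_iff.1 (hFV C hC)) (h k)).mono fun m hm => h1 m hm.1 hm.2

theorem fil_gen {F : Fam M} {D : IPow M (INat M × Pos M)} (hF : Fil F)
    (hD : ∀ k l m, k ≤ l → (l, m) ∈ D → (k, m) ∈ D)
    (h : ∀ C, C ∈ F → ∀ k, ∃ m, m ∈ C ∧ (k, m) ∈ D) : Fil (gen F D) := by
  refine ⟨?_, ?_, ?_, ?_⟩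
  · obtain ⟨A, hA⟩ := hF.1
    exact ⟨A, le_gen F D A hA⟩
  · intro A hA
    obtain ⟨C, hC, k, h1⟩ := mem_gen.1 hA
    obtain ⟨m, hm, h2⟩ := h C hC k
    exact ⟨m, h1 m hm h2⟩
  · intro A B hA hAB
    obtain ⟨C, hC, k, h1⟩ := mem_gen.1 hA
    exact mem_gen.2 ⟨C, hC, k, fun m hm h2 => hAB m (h1 m hm h2)⟩
  · intro A B hA hB
    obtain ⟨C, hC, k, h1⟩ := mem_gen.1 hA
    obtain ⟨C', hC', k', h1'⟩ := mem_gen.1 hB
    obtain ⟨E, hE, h2⟩ := hF.2.2.2 C C' hC hC'
    have hi : Int M (fun m : Pos M => m ∈ A ∧ m ∈ B) := (by repeat' (first | with_reducible exact IntF.fst' | with_reducible exact IntF.snd' | with_reducible exact IntF.id | with_reducible exact IntF.const _ | with_reducible exact Int.const _ | with_reducible assumption | with_reducible apply Int.and | with_reducible apply Int.or | with_reducible apply Int.not | with_reducible apply Int.imp | with_reducible apply Int.iff | with_reducible apply Int.all | with_reducible apply Int.ex | with_reducible apply Int.ne | with_reducible apply Int.eq | with_reducible apply Int.mem | with_reducible apply Int.ltN | with_reducible apply Int.leN | with_reducible apply Int.subset | with_reducible apply Int.ev | with_reducible apply Int.agr | with_reducible apply Int.eqk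 | with_reducible apply Int.fil | with_reducible apply Int.ult | with_reducible apply Int.addv | with_reducible apply Int.lub | with_reducible apply Int.adm | with_reducible apply Int.chain | with_reducible apply IntF.fst | with_reducible apply IntF.snd | with_reducible apply IntF.val | with_reducible apply IntF.succ | with_reducible apply IntF.plus | with_reducible apply IntF.iadd | with_reducible apply IntF.sadd | with_reducible apply IntF.pair | with_reducible apply IntF.act | with_reducible apply IntF.orb | with_reducible apply IntF.lexmax | with_reducible apply IntF.gen | with_reducible apply IntF.psum | with_reducible apply IntF.app | with_reducible apply IntF.ite | with_reducible apply IntF.sep | with_reducible apply IntF.agrs | with_reducible apply IntF.da | with_reducible apply IntF.step | with_reducible ((refine Int.comp₂ ?_ ?_ ?_); assumption) | with_reducible ((refine Int.comp ?_ ?_); assumption) | with_reducible ((refine IntF.comp₂ ?_ ?_ ?_); assumption) | with_reducible ((refine IntF.comp ?_ ?_); assumption)))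
    refine ⟨sep M _, mem_gen.2 ⟨E, hE, max k k', fun m hm h3 => (mem_sep hi).2 ?_⟩,
      fun m hm => (mem_sep hi).1 hm⟩
    exact ⟨h1 m (h2 m hm).1 (hD _ _ _ (le_max_left _ _) h3),
      h1' m (h2 m hm).2 (hD _ _ _ (le_max_right _ _) h3)⟩

/-- Every filter that contains `F` is contained in an ultrafilter. -/
def UT (F : Fam M) : Prop := ∀ G, Fil G → F ⊆ G → ∃ V, Ult V ∧ G ⊆ V

theorem sep_ult {F G : Fam M} (hUT : UT F) (hG : Fil G) (hFG : F ⊆ G) {p : Pos M → Prop}
    (hp : Int M p) (h : ¬ Ev G p) : ∃ V, Ult V ∧ G ⊆ V ∧ Ev V (fun m => ¬ p m) := by
  have hi : Int M (fun q : INat M × Pos M => ¬ p q.2) := (by repeat' (first | with_reducible exact IntF.fst' | with_reducible exact IntF.snd' | with_reducible exact IntF.id | with_reducible exact IntF.const _ | with_reducible exact Int.const _ | with_reducible assumption | with_reducible apply Int.and | with_reducible apply Int.or | with_reducible apply Int.not | with_reducible apply Int.imp | with_reducible apply Int.iff | with_reducible apply Int.all | with_reducible apply Int.ex | with_reducible apply Int.ne | with_reducible apply Int.eq | with_reducible apply Int.mem | with_reducible apply Int.ltN | with_reducible apply Int.leN | with_reducible apply Int.subset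 | with_reducible apply Int.ev | with_reducible apply Int.agr | with_reducible apply Int.eqk | with_reducible apply Int.fil | with_reducible apply Int.ult | with_reducible apply Int.addv | with_reducible apply Int.lub | with_reducible apply Int.adm | with_reducible apply Int.chain | with_reducible apply IntF.fst | with_reducible apply IntF.snd | with_reducible apply IntF.val | with_reducible apply IntF.succ | with_reducible apply IntF.plus | with_reducible apply IntF.iadd | with_reducible apply IntF.sadd | with_reducible apply IntF.pair | with_reducible apply IntF.act | with_reducible apply IntF.orb | with_reducible apply IntF.lexmax | with_reducible apply IntF.gen | with_reducible apply IntF.psum | with_reducible apply IntF.app | with_reducible apply IntF.ite | with_reducible apply IntF.sep | with_reducible apply IntF.agrs | with_reducible apply IntF.da | with_reducible apply IntF.step | with_reducible ((refine Int.comp₂ ?_ ?_ ?_); assumption) | with_reducible ((refine Int.comp ?_ ?_); assumption) | with_reducible ((refine IntF.comp₂ ?_ ?_ ?_); assumption) | with_reducible ((refine IntF.comp ?_ ?_); assumption)))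
  have h1 : Fil (gen G (sep M (fun q : INat M × Pos M => ¬ p q.2))) := by
    refine fil_gen hG (fun k l m _ h2 => ?_) (fun C hC k => ?_)
    · rw [mem_sep hi] at h2 ⊢
      exact h2
    · by_contra hcon
      push Not at hcon
      apply h
      refine ⟨C, hC, fun m hm => ?_⟩
      have h2 := hcon m hm
      rw [mem_sep hi] at h2
      exact not_not.1 h2
  obtain ⟨V, hV, hGV⟩ := hUT _ h1 (fun A hA => le_gen _ _ A (hFG A hA))
  refine ⟨V, hV, fun A hA => hGV A (le_gen _ _ A hA), ?_⟩
  exact ((ev_gen hG _ 0).sub hGV).mono fun m hm => (mem_sep hi).1 hm

/-- The pseudo-sum. -/
noncomputable def psum (U V : Fam M) : Fam M :=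
  sep M (fun A => Ev U (fun a => Ev V (fun b => sadd b a ∈ A)))

theorem mem_psum {U V : Fam M} {A : IPow M (Pos M)} :
    A ∈ psum U V ↔ Ev U (fun a => Ev V (fun b => sadd b a ∈ A)) := by
  unfold psum
  rw [mem_sep (by repeat' (first | with_reducible exact IntF.fst' | with_reducible exact IntF.snd' | with_reducible exact IntF.id | with_reducible exact IntF.const _ | with_reducible exact Int.const _ | with_reducible assumption | with_reducible apply Int.and | with_reducible apply Int.or | with_reducible apply Int.not | with_reducible apply Int.imp | with_reducible apply Int.iff | with_reducible apply Int.all | with_reducible apply Int.ex | with_reducible apply Int.ne | with_reducible apply Int.eq | with_reducible apply Int.mem | with_reducible apply Int.ltN | with_reducible apply Int.leN | with_reducible apply Int.subset | with_reducible apply Int.ev | with_reducible apply Int.agr | with_reducible apply Int.eqk | with_reducible apply Int.fil | with_reducible apply Int.ult | with_reducible apply Int.addv | with_reducible apply Int.lub | with_reducible apply Int.adm | with_reducible apply Int.chain | with_reducible apply IntF.fst | with_reducible apply IntF.snd | with_reducible apply IntF.val | with_reducible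 apply IntF.succ | with_reducible apply IntF.plus | with_reducible apply IntF.iadd | with_reducible apply IntF.sadd | with_reducible apply IntF.pair | with_reducible apply IntF.act | with_reducible apply IntF.orb | with_reducible apply IntF.lexmax | with_reducible apply IntF.gen | with_reducible apply IntF.psum | with_reducible apply IntF.app | with_reducible apply IntF.ite | with_reducible apply IntF.sep | with_reducible apply IntF.agrs | with_reducible apply IntF.da | with_reducible apply IntF.step | with_reducible ((refine Int.comp₂ ?_ ?_ ?_); assumption) | with_reducible ((refine Int.comp ?_ ?_); assumption) | with_reducible ((refine IntF.comp₂ ?_ ?_ ?_); assumption) | with_reducible ((refine IntF.comp ?_ ?_); assumption)))]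

theorem ev_psum {U V : Fam M} {p : Pos M → Prop} (hp : Int M p) :
    Ev (psum U V) p ↔ Ev U (fun a => Ev V (fun b => p (sadd b a))) := by
  constructor
  · rintro ⟨A, hA, h1⟩
    exact (mem_psum.1 hA).mono fun a ha => ha.mono fun b hb => h1 _ hb
  · intro h
    exact ⟨sep M p, mem_psum.2 (h.mono fun a ha => ha.mono fun b hb => (mem_sep hp).2 hb),
      fun m hm => (mem_sep hp).1 hm⟩

theorem ult_psum {U V : Fam M} (hU : Ult U) (hV : Ult V) : Ult (psum U V) := by
  refine ⟨⟨?_, ?_, ?_, ?_⟩, ?_⟩
  · have hi : Int M (fun _ : Pos M => True) := (by repeat' (first | with_reducible exact IntF.fst' | with_reducible exact IntF.snd' | with_reducible exact IntF.id | with_reducible exact IntF.const _ | with_reducible exact Int.const _ | with_reducible assumption | with_reducible apply Int.and | with_reducible apply Int.or | with_reducible apply Int.not | with_reducible apply Int.imp | with_reducible apply Int.iff | with_reducible apply Int.all | with_reducible apply Int.ex | with_reducible apply Int.ne | with_reducible apply Int.eq | with_reducible apply Int.mem | with_reducible apply Int.ltN | with_reducible apply Int.leN | with_reducible apply Int.subset | with_reducible apply Int.ev | with_reducible apply Int.agr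 | with_reducible apply Int.eqk | with_reducible apply Int.fil | with_reducible apply Int.ult | with_reducible apply Int.addv | with_reducible apply Int.lub | with_reducible apply Int.adm | with_reducible apply Int.chain | with_reducible apply IntF.fst | with_reducible apply IntF.snd | with_reducible apply IntF.val | with_reducible apply IntF.succ | with_reducible apply IntF.plus | with_reducible apply IntF.iadd | with_reducible apply IntF.sadd | with_reducible apply IntF.pair | with_reducible apply IntF.act | with_reducible apply IntF.orb | with_reducible apply IntF.lexmax | with_reducible apply IntF.gen | with_reducible apply IntF.psum | with_reducible apply IntF.app | with_reducible apply IntF.ite | with_reducible apply IntF.sep | with_reducible apply IntF.agrs | with_reducible apply IntF.da | with_reducible apply IntF.step | with_reducible ((refine Int.comp₂ ?_ ?_ ?_); assumption) | with_reducible ((refine Int.comp ?_ ?_); assumption) | with_reducible ((refine IntF.comp₂ ?_ ?_ ?_); assumption) | with_reducible ((refine IntF.comp ?_ ?_); assumption)))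
    refine ⟨sep M (fun _ => True), mem_psum.2 (hU.1.of_forall fun a => hV.1.of_forall fun b => ?_)⟩
    exact (mem_sep hi).2 trivial
  · intro A hA
    obtain ⟨a, ha⟩ := hU.1.ex (mem_psum.1 hA)
    obtain ⟨b, hb⟩ := hV.1.ex ha
    exact ⟨_, hb⟩
  · intro A C hA hAC
    exact mem_psum.2 ((mem_psum.1 hA).mono fun a ha => ha.mono fun b hb => hAC _ hb)
  · intro A C hA hC
    have hi : Int M (fun m : Pos M => m ∈ A ∧ m ∈ C) := (by repeat' (first | with_reducible exact IntF.fst' | with_reducible exact IntF.snd' | with_reducible exact IntF.id | with_reducible exact IntF.const _ | with_reducible exact Int.const _ | with_reducible assumption | with_reducible apply Int.and | with_reducible apply Int.or | with_reducible apply Int.not | with_reducible apply Int.imp | with_reducible apply Int.iff | with_reducible apply Int.all | with_reducible apply Int.ex | with_reducible apply Int.ne | with_reducible apply Int.eq | with_reducible apply Int.mem | with_reducible apply Int.ltN | with_reducible apply Int.leN | with_reducible apply Int.subset | with_reducible apply Int.ev | with_reducible apply Int.agr | with_reducible apply Int.eqk | with_reducible apply Int.fil | with_reducible apply Int.ult | with_reducible apply Int.addv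 | with_reducible apply Int.lub | with_reducible apply Int.adm | with_reducible apply Int.chain | with_reducible apply IntF.fst | with_reducible apply IntF.snd | with_reducible apply IntF.val | with_reducible apply IntF.succ | with_reducible apply IntF.plus | with_reducible apply IntF.iadd | with_reducible apply IntF.sadd | with_reducible apply IntF.pair | with_reducible apply IntF.act | with_reducible apply IntF.orb | with_reducible apply IntF.lexmax | with_reducible apply IntF.gen | with_reducible apply IntF.psum | with_reducible apply IntF.app | with_reducible apply IntF.ite | with_reducible apply IntF.sep | with_reducible apply IntF.agrs | with_reducible apply IntF.da | with_reducible apply IntF.step | with_reducible ((refine Int.comp₂ ?_ ?_ ?_); assumption) | with_reducible ((refine Int.comp ?_ ?_); assumption) | with_reducible ((refine IntF.comp₂ ?_ ?_ ?_); assumption) | with_reducible ((refine IntF.comp ?_ ?_); assumption)))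
    refine ⟨sep M _, mem_psum.2 ?_, fun m hm => (mem_sep hi).1 hm⟩
    refine (hU.1.and (mem_psum.1 hA) (mem_psum.1 hC)).mono fun a ha => ?_
    exact (hV.1.and ha.1 ha.2).mono fun b hb => (mem_sep hi).2 hb
  · intro A
    have hi : Int M (fun m : Pos M => ¬ m ∈ A) := (by repeat' (first | with_reducible exact IntF.fst' | with_reducible exact IntF.snd' | with_reducible exact IntF.id | with_reducible exact IntF.const _ | with_reducible exact Int.const _ | with_reducible assumption | with_reducible apply Int.and | with_reducible apply Int.or | with_reducible apply Int.not | with_reducible apply Int.imp | with_reducible apply Int.iff | with_reducible apply Int.all | with_reducible apply Int.ex | with_reducible apply Int.ne | with_reducible apply Int.eq | with_reducible apply Int.mem | with_reducible apply Int.ltN | with_reducible apply Int.leN | with_reducible apply Int.subset | with_reducible apply Int.ev | with_reducible apply Int.agr | with_reducible apply Int.eqk | with_reducible apply Int.fil | with_reducible apply Int.ult | with_reducible apply Int.addv | with_reducible apply Int.lub | with_reducible apply Int.adm | with_reducible apply Int.chain | with_reducible apply IntF.fst | with_reducible apply IntF.snd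 | with_reducible apply IntF.val | with_reducible apply IntF.succ | with_reducible apply IntF.plus | with_reducible apply IntF.iadd | with_reducible apply IntF.sadd | with_reducible apply IntF.pair | with_reducible apply IntF.act | with_reducible apply IntF.orb | with_reducible apply IntF.lexmax | with_reducible apply IntF.gen | with_reducible apply IntF.psum | with_reducible apply IntF.app | with_reducible apply IntF.ite | with_reducible apply IntF.sep | with_reducible apply IntF.agrs | with_reducible apply IntF.da | with_reducible apply IntF.step | with_reducible ((refine Int.comp₂ ?_ ?_ ?_); assumption) | with_reducible ((refine Int.comp ?_ ?_); assumption) | with_reducible ((refine IntF.comp₂ ?_ ?_ ?_); assumption) | with_reducible ((refine IntF.comp ?_ ?_); assumption)))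
    rcases hU.em (p := fun a => Ev V (fun b => sadd b a ∈ A)) (by repeat' (first | with_reducible exact IntF.fst' | with_reducible exact IntF.snd' | with_reducible exact IntF.id | with_reducible exact IntF.const _ | with_reducible exact Int.const _ | with_reducible assumption | with_reducible apply Int.and | with_reducible apply Int.or | with_reducible apply Int.not | with_reducible apply Int.imp | with_reducible apply Int.iff | with_reducible apply Int.all | with_reducible apply Int.ex | with_reducible apply Int.ne | with_reducible apply Int.eq | with_reducible apply Int.mem | with_reducible apply Int.ltN | with_reducible apply Int.leN | with_reducible apply Int.subset | with_reducible apply Int.ev | with_reducible apply Int.agr | with_reducible apply Int.eqk | with_reducible apply Int.fil | with_reducible apply Int.ult | with_reducible apply Int.addv | with_reducible apply Int.lub | with_reducible apply Int.adm | with_reducible apply Int.chain | with_reducible apply IntF.fst | with_reducible apply IntF.snd | with_reducible apply IntF.val | with_reducible apply IntF.succ | with_reducible apply IntF.plus | with_reducible apply IntF.iadd | with_reducible apply IntF.sadd | with_reducible apply IntF.pair |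 with_reducible apply IntF.act | with_reducible apply IntF.orb | with_reducible apply IntF.lexmax | with_reducible apply IntF.gen | with_reducible apply IntF.psum | with_reducible apply IntF.app | with_reducible apply IntF.ite | with_reducible apply IntF.sep | with_reducible apply IntF.agrs | with_reducible apply IntF.da | with_reducible apply IntF.step | with_reducible ((refine Int.comp₂ ?_ ?_ ?_); assumption) | with_reducible ((refine Int.comp ?_ ?_); assumption) | with_reducible ((refine IntF.comp₂ ?_ ?_ ?_); assumption) | with_reducible ((refine IntF.comp ?_ ?_); assumption))) with h | h
    · exact Or.inl (mem_psum.2 h)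
    · right
      rw [ev_psum hi]
      refine h.mono fun a ha => ?_
      exact (hV.not_iff (p := fun b => sadd b a ∈ A) (by repeat' (first | with_reducible exact IntF.fst' | with_reducible exact IntF.snd' | with_reducible exact IntF.id | with_reducible exact IntF.const _ | with_reducible exact Int.const _ | with_reducible assumption | with_reducible apply Int.and | with_reducible apply Int.or | with_reducible apply Int.not | with_reducible apply Int.imp | with_reducible apply Int.iff | with_reducible apply Int.all | with_reducible apply Int.ex | with_reducible apply Int.ne | with_reducible apply Int.eq | with_reducible apply Int.mem | with_reducible apply Int.ltN | with_reducible apply Int.leN | with_reducible apply Int.subset | with_reducible apply Int.ev | with_reducible apply Int.agr | with_reducible apply Int.eqk | with_reducible apply Int.fil | with_reducible apply Int.ult | with_reducible apply Int.addv | with_reducible apply Int.lub | with_reducible apply Int.adm | with_reducible apply Int.chain | with_reducible apply IntF.fst | with_reducible apply IntF.snd | with_reducible apply IntF.val | with_reducible apply IntF.succ | with_reducible apply IntF.plus | with_reducible apply IntF.iadd | with_reducible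 apply IntF.sadd | with_reducible apply IntF.pair | with_reducible apply IntF.act | with_reducible apply IntF.orb | with_reducible apply IntF.lexmax | with_reducible apply IntF.gen | with_reducible apply IntF.psum | with_reducible apply IntF.app | with_reducible apply IntF.ite | with_reducible apply IntF.sep | with_reducible apply IntF.agrs | with_reducible apply IntF.da | with_reducible apply IntF.step | with_reducible ((refine Int.comp₂ ?_ ?_ ?_); assumption) | with_reducible ((refine Int.comp ?_ ?_); assumption) | with_reducible ((refine IntF.comp₂ ?_ ?_ ?_); assumption) | with_reducible ((refine IntF.comp ?_ ?_); assumption)))).1 ha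

/-- Additive filters. -/
def Addv (F : Fam M) : Prop :=
  ∀ V, Ult V → F ⊆ V → ∀ A, A ∈ F → Ev F (fun n => Ev V (fun m => sadd m n ∈ A))

theorem Int.addv {γ : Type u} [ITy M γ] {F : γ → Fam M} (hF : IntF M F) :
    Int M (fun c => Addv (F c)) := by
  unfold Addv
  exact (by repeat' (first | with_reducible exact IntF.fst' | with_reducible exact IntF.snd' | with_reducible exact IntF.id | with_reducible exact IntF.const _ | with_reducible exact Int.const _ | with_reducible assumption | with_reducible apply Int.and | with_reducible apply Int.or | with_reducible apply Int.not | with_reducible apply Int.imp | with_reducible apply Int.iff | with_reducible apply Int.all | with_reducible apply Int.ex | with_reducible apply Int.ne | with_reducible apply Int.eq | with_reducible apply Int.mem | with_reducible apply Int.ltN | with_reducible apply Int.leN | with_reducible apply Int.subset | with_reducible apply Int.ev | with_reducible apply Int.agr | with_reducible apply Int.eqk | with_reducible apply Int.fil | with_reducible apply Int.ult | with_reducible apply Int.addv | with_reducible apply Int.lub | with_reducible apply Int.adm | with_reducible apply Int.chain | with_reducible apply IntF.fst | with_reducible apply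 IntF.snd | with_reducible apply IntF.val | with_reducible apply IntF.succ | with_reducible apply IntF.plus | with_reducible apply IntF.iadd | with_reducible apply IntF.sadd | with_reducible apply IntF.pair | with_reducible apply IntF.act | with_reducible apply IntF.orb | with_reducible apply IntF.lexmax | with_reducible apply IntF.gen | with_reducible apply IntF.psum | with_reducible apply IntF.app | with_reducible apply IntF.ite | with_reducible apply IntF.sep | with_reducible apply IntF.agrs | with_reducible apply IntF.da | with_reducible apply IntF.step | with_reducible ((refine Int.comp₂ ?_ ?_ ?_); assumption) | with_reducible ((refine Int.comp ?_ ?_); assumption) | with_reducible ((refine IntF.comp₂ ?_ ?_ ?_); assumption) | with_reducible ((refine IntF.comp ?_ ?_); assumption)))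

theorem Addv.psum {F U V : Fam M} (hF : Addv F) (hFU : F ⊆ U) (hV : Ult V) (hFV : F ⊆ V) :
    F ⊆ psum U V :=
  fun A hA => mem_psum.2 ((hF V hV hFV A hA).sub hFU)

theorem addv_of {F G : Fam M} (hUT : UT F) (hG : Fil G) (hFG : F ⊆ G)
    (h : ∀ U V, Ult U → G ⊆ U → Ult V → G ⊆ V → G ⊆ psum U V) : Addv G := by
  intro V hV hGV A hA
  by_contra hcon
  obtain ⟨U, hU, hGU, h1⟩ := sep_ult hUT hG hFG (p := fun n => Ev V (fun m => sadd m n ∈ A))
    (by repeat' (first | with_reducible exact IntF.fst' | with_reducible exact IntF.snd' | with_reducible exact IntF.id | with_reducible exact IntF.const _ | with_reducible exact Int.const _ | with_reducible assumption | with_reducible apply Int.and | with_reducible apply Int.or | with_reducible apply Int.not | with_reducible apply Int.imp | with_reducible apply Int.iff | with_reducible apply Int.all | with_reducible apply Int.ex | with_reducible apply Int.ne | with_reducible apply Int.eq | with_reducible apply Int.mem | with_reducible apply Int.ltN | with_reducible apply Int.leN | with_reducible apply Int.subset | with_reducible apply Int.ev | with_reducible apply Int.agr | with_reducible apply Int.eqk | with_reducible apply Int.fil | with_reducible apply Int.ult |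 with_reducible apply Int.addv | with_reducible apply Int.lub | with_reducible apply Int.adm | with_reducible apply Int.chain | with_reducible apply IntF.fst | with_reducible apply IntF.snd | with_reducible apply IntF.val | with_reducible apply IntF.succ | with_reducible apply IntF.plus | with_reducible apply IntF.iadd | with_reducible apply IntF.sadd | with_reducible apply IntF.pair | with_reducible apply IntF.act | with_reducible apply IntF.orb | with_reducible apply IntF.lexmax | with_reducible apply IntF.gen | with_reducible apply IntF.psum | with_reducible apply IntF.app | with_reducible apply IntF.ite | with_reducible apply IntF.sep | with_reducible apply IntF.agrs | with_reducible apply IntF.da | with_reducible apply IntF.step | with_reducible ((refine Int.comp₂ ?_ ?_ ?_); assumption) | with_reducible ((refine Int.comp ?_ ?_); assumption) | with_reducible ((refine IntF.comp₂ ?_ ?_ ?_); assumption) | with_reducible ((refine IntF.comp ?_ ?_); assumption))) hcon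
  obtain ⟨m, h2, h3⟩ := hU.1.ex (hU.1.and h1 (mem_psum.1 (h U V hU hGU hV hGV A hA)))
  exact h2 h3

/-! ### The action on sets of natural numbers -/

/-- The action of a filter on sets of natural numbers. -/
noncomputable def act (V : Fam M) (x : Sq M) : Sq M :=
  sep M (fun n => Ev V (fun m => plus m n ∈ x))

theorem mem_act {V : Fam M} {x : Sq M} {n : INat M} :
    n ∈ act V x ↔ Ev V (fun m => plus m n ∈ x) := by
  unfold act
  rw [mem_sep (by repeat' (first | with_reducible exact IntF.fst' | with_reducible exact IntF.snd' | with_reducible exact IntF.id | with_reducible exact IntF.const _ | with_reducible exact Int.const _ | with_reducible assumption | with_reducible apply Int.and | with_reducible apply Int.or | with_reducible apply Int.not | with_reducible apply Int.imp | with_reducible apply Int.iff | with_reducible apply Int.all | with_reducible apply Int.ex | with_reducible apply Int.ne | with_reducible apply Int.eq | with_reducible apply Int.mem | with_reducible apply Int.ltN | with_reducible apply Int.leN | with_reducible apply Int.subset | with_reducible apply Int.ev | with_reducible apply Int.agr | with_reducible apply Int.eqk | with_reducible apply Int.fil | with_reducible apply Int.ult | with_reducible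 apply Int.addv | with_reducible apply Int.lub | with_reducible apply Int.adm | with_reducible apply Int.chain | with_reducible apply IntF.fst | with_reducible apply IntF.snd | with_reducible apply IntF.val | with_reducible apply IntF.succ | with_reducible apply IntF.plus | with_reducible apply IntF.iadd | with_reducible apply IntF.sadd | with_reducible apply IntF.pair | with_reducible apply IntF.act | with_reducible apply IntF.orb | with_reducible apply IntF.lexmax | with_reducible apply IntF.gen | with_reducible apply IntF.psum | with_reducible apply IntF.app | with_reducible apply IntF.ite | with_reducible apply IntF.sep | with_reducible apply IntF.agrs | with_reducible apply IntF.da | with_reducible apply IntF.step | with_reducible ((refine Int.comp₂ ?_ ?_ ?_); assumption) | with_reducible ((refine Int.comp ?_ ?_); assumption) | with_reducible ((refine IntF.comp₂ ?_ ?_ ?_); assumption) | with_reducible ((refine IntF.comp ?_ ?_); assumption)))]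

theorem act_psum {U V : Fam M} {x : Sq M} : act (psum U V) x = act U (act V x) := by
  refine IPow.ext' fun n => ?_
  have hi : Int M (fun m : Pos M => plus m n ∈ x) := (by repeat' (first | with_reducible exact IntF.fst' | with_reducible exact IntF.snd' | with_reducible exact IntF.id | with_reducible exact IntF.const _ | with_reducible exact Int.const _ | with_reducible assumption | with_reducible apply Int.and | with_reducible apply Int.or | with_reducible apply Int.not | with_reducible apply Int.imp | with_reducible apply Int.iff | with_reducible apply Int.all | with_reducible apply Int.ex | with_reducible apply Int.ne | with_reducible apply Int.eq | with_reducible apply Int.mem | with_reducible apply Int.ltN | with_reducible apply Int.leN | with_reducible apply Int.subset | with_reducible apply Int.ev | with_reducible apply Int.agr | with_reducible apply Int.eqk | with_reducible apply Int.fil | with_reducible apply Int.ult | with_reducible apply Int.addv | with_reducible apply Int.lub | with_reducible apply Int.adm | with_reducible apply Int.chain | with_reducible apply IntF.fst | with_reducible apply IntF.snd | with_reducible apply IntF.val | with_reducible apply IntF.succ | with_reducible apply IntF.plus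 | with_reducible apply IntF.iadd | with_reducible apply IntF.sadd | with_reducible apply IntF.pair | with_reducible apply IntF.act | with_reducible apply IntF.orb | with_reducible apply IntF.lexmax | with_reducible apply IntF.gen | with_reducible apply IntF.psum | with_reducible apply IntF.app | with_reducible apply IntF.ite | with_reducible apply IntF.sep | with_reducible apply IntF.agrs | with_reducible apply IntF.da | with_reducible apply IntF.step | with_reducible ((refine Int.comp₂ ?_ ?_ ?_); assumption) | with_reducible ((refine Int.comp ?_ ?_); assumption) | with_reducible ((refine IntF.comp₂ ?_ ?_ ?_); assumption) | with_reducible ((refine IntF.comp ?_ ?_); assumption)))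
  rw [mem_act, mem_act, ev_psum hi]
  constructor
  · intro h
    refine h.mono fun a ha => mem_act.2 (ha.mono fun b hb => ?_)
    rwa [← plus_plus]
  · intro h
    refine h.mono fun a ha => (mem_act.1 ha).mono fun b hb => ?_
    rwa [plus_plus]

/-- `x` shifted by `m` agrees with `z` below `k`. -/
def Agr (x z : Sq M) (k : INat M) (m : Pos M) : Prop := ∀ n, n < k → (plus m n ∈ x ↔ n ∈ z)

theorem Int.agr {γ : Type u} [ITy M γ] {x z : γ → Sq M} {k : γ → INat M} {m : γ → Pos M}
    (hx : IntF M x) (hz : IntF M z) (hk : IntF M k) (hm : IntF M m) :
    Int M (fun c => Agr (x c) (z c) (k c) (m c)) := by
  unfold Agr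
  exact (by repeat' (first | with_reducible exact IntF.fst' | with_reducible exact IntF.snd' | with_reducible exact IntF.id | with_reducible exact IntF.const _ | with_reducible exact Int.const _ | with_reducible assumption | with_reducible apply Int.and | with_reducible apply Int.or | with_reducible apply Int.not | with_reducible apply Int.imp | with_reducible apply Int.iff | with_reducible apply Int.all | with_reducible apply Int.ex | with_reducible apply Int.ne | with_reducible apply Int.eq | with_reducible apply Int.mem | with_reducible apply Int.ltN | with_reducible apply Int.leN | with_reducible apply Int.subset | with_reducible apply Int.ev | with_reducible apply Int.agr | with_reducible apply Int.eqk | with_reducible apply Int.fil | with_reducible apply Int.ult | with_reducible apply Int.addv | with_reducible apply Int.lub | with_reducible apply Int.adm | with_reducible apply Int.chain | with_reducible apply IntF.fst | with_reducible apply IntF.snd | with_reducible apply IntF.val | with_reducible apply IntF.succ | with_reducible apply IntF.plus | with_reducible apply IntF.iadd | with_reducible apply IntF.sadd | with_reducible apply IntF.pair | with_reducible apply IntF.act | with_reducible apply IntF.orb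 | with_reducible apply IntF.lexmax | with_reducible apply IntF.gen | with_reducible apply IntF.psum | with_reducible apply IntF.app | with_reducible apply IntF.ite | with_reducible apply IntF.sep | with_reducible apply IntF.agrs | with_reducible apply IntF.da | with_reducible apply IntF.step | with_reducible ((refine Int.comp₂ ?_ ?_ ?_); assumption) | with_reducible ((refine Int.comp ?_ ?_); assumption) | with_reducible ((refine IntF.comp₂ ?_ ?_ ?_); assumption) | with_reducible ((refine IntF.comp ?_ ?_); assumption)))

/-- `x` and `z` agree below `k`. -/
def Eqk (x z : Sq M) (k : INat M) : Prop := ∀ n, n < k → (n ∈ x ↔ n ∈ z)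

theorem Int.eqk {γ : Type u} [ITy M γ] {x z : γ → Sq M} {k : γ → INat M}
    (hx : IntF M x) (hz : IntF M z) (hk : IntF M k) :
    Int M (fun c => Eqk (x c) (z c) (k c)) := by
  unfold Eqk
  exact (by repeat' (first | with_reducible exact IntF.fst' | with_reducible exact IntF.snd' | with_reducible exact IntF.id | with_reducible exact IntF.const _ | with_reducible exact Int.const _ | with_reducible assumption | with_reducible apply Int.and | with_reducible apply Int.or | with_reducible apply Int.not | with_reducible apply Int.imp | with_reducible apply Int.iff | with_reducible apply Int.all | with_reducible apply Int.ex | with_reducible apply Int.ne | with_reducible apply Int.eq | with_reducible apply Int.mem | with_reducible apply Int.ltN | with_reducible apply Int.leN | with_reducible apply Int.subset | with_reducible apply Int.ev | with_reducible apply Int.agr | with_reducible apply Int.eqk | with_reducible apply Int.fil | with_reducible apply Int.ult | with_reducible apply Int.addv | with_reducible apply Int.lub | with_reducible apply Int.adm | with_reducible apply Int.chain | with_reducible apply IntF.fst | with_reducible apply IntF.snd | with_reducible apply IntF.val | with_reducible apply IntF.succ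 | with_reducible apply IntF.plus | with_reducible apply IntF.iadd | with_reducible apply IntF.sadd | with_reducible apply IntF.pair | with_reducible apply IntF.act | with_reducible apply IntF.orb | with_reducible apply IntF.lexmax | with_reducible apply IntF.gen | with_reducible apply IntF.psum | with_reducible apply IntF.app | with_reducible apply IntF.ite | with_reducible apply IntF.sep | with_reducible apply IntF.agrs | with_reducible apply IntF.da | with_reducible apply IntF.step | with_reducible ((refine Int.comp₂ ?_ ?_ ?_); assumption) | with_reducible ((refine Int.comp ?_ ?_); assumption) | with_reducible ((refine IntF.comp₂ ?_ ?_ ?_); assumption) | with_reducible ((refine IntF.comp ?_ ?_); assumption)))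

theorem act_eq_iff {V : Fam M} (hV : Ult V) {x z : Sq M} :
    act V x = z ↔ ∀ k, Ev V (Agr x z k) := by
  constructor
  · rintro rfl
    refine INat.ind (p := fun k => Ev V (Agr x (act V x) k)) ?_ ?_ ?_
    · have : Int M (fun k : INat M => Ev V (fun m => Agr x (act V x) k m)) := (by repeat' (first | with_reducible exact IntF.fst' | with_reducible exact IntF.snd' | with_reducible exact IntF.id | with_reducible exact IntF.const _ | with_reducible exact Int.const _ | with_reducible assumption | with_reducible apply Int.and | with_reducible apply Int.or | with_reducible apply Int.not | with_reducible apply Int.imp | with_reducible apply Int.iff | with_reducible apply Int.all | with_reducible apply Int.ex | with_reducible apply Int.ne | with_reducible apply Int.eq | with_reducible apply Int.mem | with_reducible apply Int.ltN | with_reducible apply Int.leN | with_reducible apply Int.subset | with_reducible apply Int.ev | with_reducible apply Int.agr | with_reducible apply Int.eqk | with_reducible apply Int.fil | with_reducible apply Int.ult | with_reducible apply Int.addv | with_reducible apply Int.lub | with_reducible apply Int.adm | with_reducible apply Int.chain | with_reducible apply IntF.fst | with_reducible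 apply IntF.snd | with_reducible apply IntF.val | with_reducible apply IntF.succ | with_reducible apply IntF.plus | with_reducible apply IntF.iadd | with_reducible apply IntF.sadd | with_reducible apply IntF.pair | with_reducible apply IntF.act | with_reducible apply IntF.orb | with_reducible apply IntF.lexmax | with_reducible apply IntF.gen | with_reducible apply IntF.psum | with_reducible apply IntF.app | with_reducible apply IntF.ite | with_reducible apply IntF.sep | with_reducible apply IntF.agrs | with_reducible apply IntF.da | with_reducible apply IntF.step | with_reducible ((refine Int.comp₂ ?_ ?_ ?_); assumption) | with_reducible ((refine Int.comp ?_ ?_); assumption) | with_reducible ((refine IntF.comp₂ ?_ ?_ ?_); assumption) | with_reducible ((refine IntF.comp ?_ ?_); assumption)))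
      exact this
    · exact hV.1.of_forall fun m n hn => absurd hn INat.not_lt_zero
    · intro k ih
      have hi : Int M (fun m : Pos M => plus m k ∈ x) := (by repeat' (first | with_reducible exact IntF.fst' | with_reducible exact IntF.snd' | with_reducible exact IntF.id | with_reducible exact IntF.const _ | with_reducible exact Int.const _ | with_reducible assumption | with_reducible apply Int.and | with_reducible apply Int.or | with_reducible apply Int.not | with_reducible apply Int.imp | with_reducible apply Int.iff | with_reducible apply Int.all | with_reducible apply Int.ex | with_reducible apply Int.ne | with_reducible apply Int.eq | with_reducible apply Int.mem | with_reducible apply Int.ltN | with_reducible apply Int.leN | with_reducible apply Int.subset | with_reducible apply Int.ev | with_reducible apply Int.agr | with_reducible apply Int.eqk | with_reducible apply Int.fil | with_reducible apply Int.ult | with_reducible apply Int.addv | with_reducible apply Int.lub | with_reducible apply Int.adm | with_reducible apply Int.chain | with_reducible apply IntF.fst | with_reducible apply IntF.snd | with_reducible apply IntF.val | with_reducible apply IntF.succ | with_reducible apply IntF.plus | with_reducible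 apply IntF.iadd | with_reducible apply IntF.sadd | with_reducible apply IntF.pair | with_reducible apply IntF.act | with_reducible apply IntF.orb | with_reducible apply IntF.lexmax | with_reducible apply IntF.gen | with_reducible apply IntF.psum | with_reducible apply IntF.app | with_reducible apply IntF.ite | with_reducible apply IntF.sep | with_reducible apply IntF.agrs | with_reducible apply IntF.da | with_reducible apply IntF.step | with_reducible ((refine Int.comp₂ ?_ ?_ ?_); assumption) | with_reducible ((refine Int.comp ?_ ?_); assumption) | with_reducible ((refine IntF.comp₂ ?_ ?_ ?_); assumption) | with_reducible ((refine IntF.comp ?_ ?_); assumption)))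
      have h1 : Ev V (fun m => (plus m k ∈ x ↔ k ∈ act V x)) := by
        by_cases hk : k ∈ act V x
        · exact (mem_act.1 hk).mono fun m hm => ⟨fun _ => hk, fun _ => hm⟩
        · have h2 := (hV.not_iff hi).1 (fun h => hk (mem_act.2 h))
          exact h2.mono fun m hm => ⟨fun h => absurd h hm, fun h => absurd h hk⟩
      refine (hV.1.and ih h1).mono fun m hm n hn => ?_
      rcases lt_or_eq_of_le (INat.lt_succ_iff.1 hn) with h | rfl
      · exact hm.1 n h
      · exact hm.2
  · intro h
    refine IPow.ext' fun n => ?_
    have h1 := (h n.succ).mono (q := fun m => (plus m n ∈ x ↔ n ∈ z)) fun m hm =>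
      hm n (INat.lt_succ_self n)
    have hi : Int M (fun m : Pos M => plus m n ∈ x) := (by repeat' (first | with_reducible exact IntF.fst' | with_reducible exact IntF.snd' | with_reducible exact IntF.id | with_reducible exact IntF.const _ | with_reducible exact Int.const _ | with_reducible assumption | with_reducible apply Int.and | with_reducible apply Int.or | with_reducible apply Int.not | with_reducible apply Int.imp | with_reducible apply Int.iff | with_reducible apply Int.all | with_reducible apply Int.ex | with_reducible apply Int.ne | with_reducible apply Int.eq | with_reducible apply Int.mem | with_reducible apply Int.ltN | with_reducible apply Int.leN | with_reducible apply Int.subset | with_reducible apply Int.ev | with_reducible apply Int.agr | with_reducible apply Int.eqk | with_reducible apply Int.fil | with_reducible apply Int.ult | with_reducible apply Int.addv | with_reducible apply Int.lub | with_reducible apply Int.adm | with_reducible apply Int.chain | with_reducible apply IntF.fst | with_reducible apply IntF.snd | with_reducible apply IntF.val | with_reducible apply IntF.succ | with_reducible apply IntF.plus | with_reducible apply IntF.iadd | with_reducible apply IntF.sadd | with_reducible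 apply IntF.pair | with_reducible apply IntF.act | with_reducible apply IntF.orb | with_reducible apply IntF.lexmax | with_reducible apply IntF.gen | with_reducible apply IntF.psum | with_reducible apply IntF.app | with_reducible apply IntF.ite | with_reducible apply IntF.sep | with_reducible apply IntF.agrs | with_reducible apply IntF.da | with_reducible apply IntF.step | with_reducible ((refine Int.comp₂ ?_ ?_ ?_); assumption) | with_reducible ((refine Int.comp ?_ ?_); assumption) | with_reducible ((refine IntF.comp₂ ?_ ?_ ?_); assumption) | with_reducible ((refine IntF.comp ?_ ?_); assumption)))
    rw [mem_act]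
    constructor
    · intro h2
      obtain ⟨m, h3, h4⟩ := hV.1.ex (hV.1.and h1 h2)
      exact h3.1 h4
    · intro hn
      exact h1.mono fun m hm => hm.2 hn

/-- The orbit closure of `x`. -/
noncomputable def orb (F : Fam M) (x : Sq M) : IPow M (Sq M) :=
  sep M (fun z => ∀ A, A ∈ F → ∀ k, ∃ m, m ∈ A ∧ Agr x z k m)

theorem IntF.orb {γ : Type u} [ITy M γ] {F : γ → Fam M} {x : γ → Sq M}
    (hF : IntF M F) (hx : IntF M x) : IntF M (fun c => orb (F c) (x c)) := by
  unfold AF.orb
  exact (by repeat' (first | with_reducible exact IntF.fst' | with_reducible exact IntF.snd' | with_reducible exact IntF.id | with_reducible exact IntF.const _ | with_reducible exact Int.const _ | with_reducible assumption | with_reducible apply Int.and | with_reducible apply Int.or | with_reducible apply Int.not | with_reducible apply Int.imp | with_reducible apply Int.iff | with_reducible apply Int.all | with_reducible apply Int.ex | with_reducible apply Int.ne | with_reducible apply Int.eq | with_reducible apply Int.mem | with_reducible apply Int.ltN | with_reducible apply Int.leN | with_reducible apply Int.subset | with_reducible apply Int.ev | with_reducible apply Int.agr | with_reducible apply Int.eqk | with_reducible apply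 Int.fil | with_reducible apply Int.ult | with_reducible apply Int.addv | with_reducible apply Int.lub | with_reducible apply Int.adm | with_reducible apply Int.chain | with_reducible apply IntF.fst | with_reducible apply IntF.snd | with_reducible apply IntF.val | with_reducible apply IntF.succ | with_reducible apply IntF.plus | with_reducible apply IntF.iadd | with_reducible apply IntF.sadd | with_reducible apply IntF.pair | with_reducible apply IntF.act | with_reducible apply IntF.orb | with_reducible apply IntF.lexmax | with_reducible apply IntF.gen | with_reducible apply IntF.psum | with_reducible apply IntF.app | with_reducible apply IntF.ite | with_reducible apply IntF.sep | with_reducible apply IntF.agrs | with_reducible apply IntF.da | with_reducible apply IntF.step | with_reducible ((refine Int.comp₂ ?_ ?_ ?_); assumption) | with_reducible ((refine Int.comp ?_ ?_); assumption) | with_reducible ((refine IntF.comp₂ ?_ ?_ ?_); assumption) | with_reducible ((refine IntF.comp ?_ ?_); assumption)))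

theorem mem_orb {F : Fam M} {x z : Sq M} :
    z ∈ orb F x ↔ ∀ A, A ∈ F → ∀ k, ∃ m, m ∈ A ∧ Agr x z k m := by
  unfold orb
  rw [mem_sep (by repeat' (first | with_reducible exact IntF.fst' | with_reducible exact IntF.snd' | with_reducible exact IntF.id | with_reducible exact IntF.const _ | with_reducible exact Int.const _ | with_reducible assumption | with_reducible apply Int.and | with_reducible apply Int.or | with_reducible apply Int.not | with_reducible apply Int.imp | with_reducible apply Int.iff | with_reducible apply Int.all | with_reducible apply Int.ex | with_reducible apply Int.ne | with_reducible apply Int.eq | with_reducible apply Int.mem | with_reducible apply Int.ltN | with_reducible apply Int.leN | with_reducible apply Int.subset | with_reducible apply Int.ev | with_reducible apply Int.agr | with_reducible apply Int.eqk | with_reducible apply Int.fil | with_reducible apply Int.ult | with_reducible apply Int.addv | with_reducible apply Int.lub | with_reducible apply Int.adm | with_reducible apply Int.chain | with_reducible apply IntF.fst | with_reducible apply IntF.snd | with_reducible apply IntF.val | with_reducible apply IntF.succ | with_reducible apply IntF.plus | with_reducible apply IntF.iadd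 | with_reducible apply IntF.sadd | with_reducible apply IntF.pair | with_reducible apply IntF.act | with_reducible apply IntF.orb | with_reducible apply IntF.lexmax | with_reducible apply IntF.gen | with_reducible apply IntF.psum | with_reducible apply IntF.app | with_reducible apply IntF.ite | with_reducible apply IntF.sep | with_reducible apply IntF.agrs | with_reducible apply IntF.da | with_reducible apply IntF.step | with_reducible ((refine Int.comp₂ ?_ ?_ ?_); assumption) | with_reducible ((refine Int.comp ?_ ?_); assumption) | with_reducible ((refine IntF.comp₂ ?_ ?_ ?_); assumption) | with_reducible ((refine IntF.comp ?_ ?_); assumption)))]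

theorem orb_closed {F : Fam M} {x z : Sq M} (h : ∀ k, ∃ w, w ∈ orb F x ∧ Eqk w z k) :
    z ∈ orb F x := by
  rw [mem_orb]
  intro A hA k
  obtain ⟨w, hw, hwz⟩ := h k
  obtain ⟨m, hm, h1⟩ := mem_orb.1 hw A hA k
  exact ⟨m, hm, fun n hn => (h1 n hn).trans (hwz n hn)⟩

/-- The sets on which the shift of `x` agrees with `z` below `k`. -/
noncomputable def agrs (x z : Sq M) : IPow M (INat M × Pos M) :=
  sep M (fun q : INat M × Pos M => Agr x z q.1 q.2)

theorem mem_agrs {x z : Sq M} {k : INat M} {m : Pos M} : (k, m) ∈ agrs x z ↔ Agr x z k m := by
  unfold agrs
  rw [mem_sep (by repeat' (first | with_reducible exact IntF.fst' | with_reducible exact IntF.snd' | with_reducible exact IntF.id | with_reducible exact IntF.const _ | with_reducible exact Int.const _ | with_reducible assumption | with_reducible apply Int.and | with_reducible apply Int.or | with_reducible apply Int.not | with_reducible apply Int.imp | with_reducible apply Int.iff | with_reducible apply Int.all | with_reducible apply Int.ex | with_reducible apply Int.ne | with_reducible apply Int.eq | with_reducible apply Int.mem | with_reducible apply Int.ltN | with_reducible apply Int.leN | with_reducible apply Int.subset | with_reducible apply Int.ev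 | with_reducible apply Int.agr | with_reducible apply Int.eqk | with_reducible apply Int.fil | with_reducible apply Int.ult | with_reducible apply Int.addv | with_reducible apply Int.lub | with_reducible apply Int.adm | with_reducible apply Int.chain | with_reducible apply IntF.fst | with_reducible apply IntF.snd | with_reducible apply IntF.val | with_reducible apply IntF.succ | with_reducible apply IntF.plus | with_reducible apply IntF.iadd | with_reducible apply IntF.sadd | with_reducible apply IntF.pair | with_reducible apply IntF.act | with_reducible apply IntF.orb | with_reducible apply IntF.lexmax | with_reducible apply IntF.gen | with_reducible apply IntF.psum | with_reducible apply IntF.app | with_reducible apply IntF.ite | with_reducible apply IntF.sep | with_reducible apply IntF.agrs | with_reducible apply IntF.da | with_reducible apply IntF.step | with_reducible ((refine Int.comp₂ ?_ ?_ ?_); assumption) | with_reducible ((refine Int.comp ?_ ?_); assumption) | with_reducible ((refine IntF.comp₂ ?_ ?_ ?_); assumption) | with_reducible ((refine IntF.comp ?_ ?_); assumption)))]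

theorem agrs_dec {x z : Sq M} {k l : INat M} {m : Pos M} (hkl : k ≤ l) (h : (l, m) ∈ agrs x z) :
    (k, m) ∈ agrs x z := by
  rw [mem_agrs] at h ⊢
  exact fun n hn => h n (hn.trans_le hkl)

theorem ev_agrs {V : Fam M} {x z : Sq M} {k : INat M} :
    Ev V (fun m => (k, m) ∈ agrs x z) ↔ Ev V (Agr x z k) :=
  ⟨fun h => h.mono fun _ hm => mem_agrs.1 hm, fun h => h.mono fun _ hm => mem_agrs.2 hm⟩

theorem fil_gen_agrs {F : Fam M} (hF : Fil F) {x z : Sq M} (hz : z ∈ orb F x) :
    Fil (gen F (agrs x z)) := by
  refine fil_gen hF (fun k l m => agrs_dec) fun C hC k => ?_
  obtain ⟨m, hm, h⟩ := mem_orb.1 hz C hC k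
  exact ⟨m, hm, mem_agrs.2 h⟩

theorem mem_orb_iff {F G : Fam M} (hUT : UT F) (hG : Fil G) (hFG : F ⊆ G) {x z : Sq M} :
    z ∈ orb G x ↔ ∃ V, Ult V ∧ G ⊆ V ∧ act V x = z := by
  constructor
  · intro hz
    obtain ⟨V, hV, hGV⟩ := hUT _ (fil_gen_agrs hG hz) (fun A hA => le_gen _ _ A (hFG A hA))
    refine ⟨V, hV, fun A hA => hGV A (le_gen _ _ A hA), (act_eq_iff hV).2 fun k => ?_⟩
    exact ev_agrs.1 ((ev_gen hG _ k).sub hGV)
  · rintro ⟨V, hV, hGV, h⟩
    rw [mem_orb]
    intro A hA k
    have h1 := (act_eq_iff hV).1 h k
    obtain ⟨m, h2, h3⟩ := hV.1.ex (hV.1.and (hV.1.mem_iff.1 (hGV A hA)) h1)
    exact ⟨m, h2, h3⟩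

/-- The lexicographically greatest element. -/
noncomputable def lexmax (O : IPow M (Sq M)) : Sq M :=
  sep M (fun n => ∃ z, z ∈ O ∧ n ∈ z ∧ ∀ z', z' ∈ O → ∀ j, j ≤ n → Eqk z z' j → j ∈ z' → j ∈ z)

theorem IntF.lexmax {γ : Type u} [ITy M γ] {O : γ → IPow M (Sq M)} (hO : IntF M O) :
    IntF M (fun c => lexmax (O c)) := by
  unfold AF.lexmax
  exact (by repeat' (first | with_reducible exact IntF.fst' | with_reducible exact IntF.snd' | with_reducible exact IntF.id | with_reducible exact IntF.const _ | with_reducible exact Int.const _ | with_reducible assumption | with_reducible apply Int.and | with_reducible apply Int.or | with_reducible apply Int.not | with_reducible apply Int.imp | with_reducible apply Int.iff | with_reducible apply Int.all | with_reducible apply Int.ex | with_reducible apply Int.ne | with_reducible apply Int.eq | with_reducible apply Int.mem | with_reducible apply Int.ltN | with_reducible apply Int.leN | with_reducible apply Int.subset | with_reducible apply Int.ev | with_reducible apply Int.agr | with_reducible apply Int.eqk | with_reducible apply Int.fil | with_reducible apply Int.ult | with_reducible apply Int.addv | with_reducible apply Int.lub | with_reducible apply Int.adm | with_reducible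 apply Int.chain | with_reducible apply IntF.fst | with_reducible apply IntF.snd | with_reducible apply IntF.val | with_reducible apply IntF.succ | with_reducible apply IntF.plus | with_reducible apply IntF.iadd | with_reducible apply IntF.sadd | with_reducible apply IntF.pair | with_reducible apply IntF.act | with_reducible apply IntF.orb | with_reducible apply IntF.lexmax | with_reducible apply IntF.gen | with_reducible apply IntF.psum | with_reducible apply IntF.app | with_reducible apply IntF.ite | with_reducible apply IntF.sep | with_reducible apply IntF.agrs | with_reducible apply IntF.da | with_reducible apply IntF.step | with_reducible ((refine Int.comp₂ ?_ ?_ ?_); assumption) | with_reducible ((refine Int.comp ?_ ?_); assumption) | with_reducible ((refine IntF.comp₂ ?_ ?_ ?_); assumption) | with_reducible ((refine IntF.comp ?_ ?_); assumption)))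

theorem mem_lexmax {O : IPow M (Sq M)} {n : INat M} :
    n ∈ lexmax O ↔ ∃ z, z ∈ O ∧ n ∈ z ∧ ∀ z', z' ∈ O → ∀ j, j ≤ n → Eqk z z' j → j ∈ z' →
      j ∈ z := by
  unfold lexmax
  rw [mem_sep (by repeat' (first | with_reducible exact IntF.fst' | with_reducible exact IntF.snd' | with_reducible exact IntF.id | with_reducible exact IntF.const _ | with_reducible exact Int.const _ | with_reducible assumption | with_reducible apply Int.and | with_reducible apply Int.or | with_reducible apply Int.not | with_reducible apply Int.imp | with_reducible apply Int.iff | with_reducible apply Int.all | with_reducible apply Int.ex | with_reducible apply Int.ne | with_reducible apply Int.eq | with_reducible apply Int.mem | with_reducible apply Int.ltN | with_reducible apply Int.leN | with_reducible apply Int.subset | with_reducible apply Int.ev | with_reducible apply Int.agr | with_reducible apply Int.eqk | with_reducible apply Int.fil | with_reducible apply Int.ult | with_reducible apply Int.addv | with_reducible apply Int.lub | with_reducible apply Int.adm | with_reducible apply Int.chain | with_reducible apply IntF.fst | with_reducible apply IntF.snd | with_reducible apply IntF.val | with_reducible apply IntF.succ | with_reducible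 apply IntF.plus | with_reducible apply IntF.iadd | with_reducible apply IntF.sadd | with_reducible apply IntF.pair | with_reducible apply IntF.act | with_reducible apply IntF.orb | with_reducible apply IntF.lexmax | with_reducible apply IntF.gen | with_reducible apply IntF.psum | with_reducible apply IntF.app | with_reducible apply IntF.ite | with_reducible apply IntF.sep | with_reducible apply IntF.agrs | with_reducible apply IntF.da | with_reducible apply IntF.step | with_reducible ((refine Int.comp₂ ?_ ?_ ?_); assumption) | with_reducible ((refine Int.comp ?_ ?_); assumption) | with_reducible ((refine IntF.comp₂ ?_ ?_ ?_); assumption) | with_reducible ((refine IntF.comp ?_ ?_); assumption)))]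

theorem exists_max {O : IPow M (Sq M)} (hO : ∃ z, z ∈ O) (k : INat M) :
    ∃ z, z ∈ O ∧ ∀ z', z' ∈ O → ∀ j, j < k → Eqk z z' j → j ∈ z' → j ∈ z := by
  refine INat.ind (p := fun k => ∃ z, z ∈ O ∧ ∀ z', z' ∈ O → ∀ j, j < k → Eqk z z' j →
    j ∈ z' → j ∈ z) (by repeat' (first | with_reducible exact IntF.fst' | with_reducible exact IntF.snd' | with_reducible exact IntF.id | with_reducible exact IntF.const _ | with_reducible exact Int.const _ | with_reducible assumption | with_reducible apply Int.and | with_reducible apply Int.or | with_reducible apply Int.not | with_reducible apply Int.imp | with_reducible apply Int.iff | with_reducible apply Int.all | with_reducible apply Int.ex | with_reducible apply Int.ne | with_reducible apply Int.eq | with_reducible apply Int.mem | with_reducible apply Int.ltN | with_reducible apply Int.leN | with_reducible apply Int.subset | with_reducible apply Int.ev | with_reducible apply Int.agr | with_reducible apply Int.eqk | with_reducible apply Int.fil | with_reducible apply Int.ult | with_reducible apply Int.addv | with_reducible apply Int.lub | with_reducible apply Int.adm | with_reducible apply Int.chain | with_reducible apply IntF.fst | with_reducible apply IntF.snd |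 with_reducible apply IntF.val | with_reducible apply IntF.succ | with_reducible apply IntF.plus | with_reducible apply IntF.iadd | with_reducible apply IntF.sadd | with_reducible apply IntF.pair | with_reducible apply IntF.act | with_reducible apply IntF.orb | with_reducible apply IntF.lexmax | with_reducible apply IntF.gen | with_reducible apply IntF.psum | with_reducible apply IntF.app | with_reducible apply IntF.ite | with_reducible apply IntF.sep | with_reducible apply IntF.agrs | with_reducible apply IntF.da | with_reducible apply IntF.step | with_reducible ((refine Int.comp₂ ?_ ?_ ?_); assumption) | with_reducible ((refine Int.comp ?_ ?_); assumption) | with_reducible ((refine IntF.comp₂ ?_ ?_ ?_); assumption) | with_reducible ((refine IntF.comp ?_ ?_); assumption))) ?_ ?_ k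
  · obtain ⟨z, hz⟩ := hO
    exact ⟨z, hz, fun z' _ j hj => absurd hj INat.not_lt_zero⟩
  · rintro k ⟨z, hz, h⟩
    by_cases hex : ∃ z', z' ∈ O ∧ Eqk z z' k ∧ k ∈ z'
    · obtain ⟨z', hz', h1, h2⟩ := hex
      refine ⟨z', hz', fun w hw j hj hjw hjm => ?_⟩
      rcases lt_or_eq_of_le (INat.lt_succ_iff.1 hj) with h3 | rfl
      · have h4 : Eqk z w j := fun n hn => (h1 n (hn.trans h3)).trans (hjw n hn)
        exact (h1 j h3).1 (h w hw j h3 h4 hjm)
      · exact h2
    · refine ⟨z, hz, fun w hw j hj hjw hjm => ?_⟩
      rcases lt_or_eq_of_le (INat.lt_succ_iff.1 hj) with h3 | rfl
      · exact h w hw j h3 hjw hjm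
      · exact absurd ⟨w, hw, hjw, hjm⟩ hex

theorem max_unique {O : IPow M (Sq M)} {z w : Sq M} {k : INat M} (hz : z ∈ O) (hw : w ∈ O)
    (h : ∀ z', z' ∈ O → ∀ j, j < k → Eqk z z' j → j ∈ z' → j ∈ z)
    (h' : ∀ z', z' ∈ O → ∀ j, j < k → Eqk w z' j → j ∈ z' → j ∈ w) :
    ∀ n, n ≤ k → Eqk z w n := by
  refine INat.ind (p := fun n => n ≤ k → Eqk z w n) (by repeat' (first | with_reducible exact IntF.fst' | with_reducible exact IntF.snd' | with_reducible exact IntF.id | with_reducible exact IntF.const _ | with_reducible exact Int.const _ | with_reducible assumption | with_reducible apply Int.and | with_reducible apply Int.or | with_reducible apply Int.not | with_reducible apply Int.imp | with_reducible apply Int.iff | with_reducible apply Int.all | with_reducible apply Int.ex | with_reducible apply Int.ne | with_reducible apply Int.eq | with_reducible apply Int.mem | with_reducible apply Int.ltN | with_reducible apply Int.leN | with_reducible apply Int.subset | with_reducible apply Int.ev | with_reducible apply Int.agr | with_reducible apply Int.eqk | with_reducible apply Int.fil | with_reducible apply Int.ult | with_reducible apply Int.addv | with_reducible apply Int.lub | with_reducible apply Int.adm | with_reducible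 apply Int.chain | with_reducible apply IntF.fst | with_reducible apply IntF.snd | with_reducible apply IntF.val | with_reducible apply IntF.succ | with_reducible apply IntF.plus | with_reducible apply IntF.iadd | with_reducible apply IntF.sadd | with_reducible apply IntF.pair | with_reducible apply IntF.act | with_reducible apply IntF.orb | with_reducible apply IntF.lexmax | with_reducible apply IntF.gen | with_reducible apply IntF.psum | with_reducible apply IntF.app | with_reducible apply IntF.ite | with_reducible apply IntF.sep | with_reducible apply IntF.agrs | with_reducible apply IntF.da | with_reducible apply IntF.step | with_reducible ((refine Int.comp₂ ?_ ?_ ?_); assumption) | with_reducible ((refine Int.comp ?_ ?_); assumption) | with_reducible ((refine IntF.comp₂ ?_ ?_ ?_); assumption) | with_reducible ((refine IntF.comp ?_ ?_); assumption))) ?_ ?_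
  · intro _ n hn
    exact absurd hn INat.not_lt_zero
  · intro n ih hn
    have hn' : n < k := INat.succ_le_iff.1 hn
    have h1 := ih hn'.le
    have h2 : Eqk w z n := fun i hi => (h1 i hi).symm
    intro i hi
    rcases lt_or_eq_of_le (INat.lt_succ_iff.1 hi) with h3 | rfl
    · exact h1 i h3
    · exact ⟨h' z hz i hn' h2, h w hw i hn' h1⟩

theorem lexmax_approx {O : IPow M (Sq M)} (hO : ∃ z, z ∈ O) (k : INat M) :
    ∃ z, z ∈ O ∧ Eqk z (lexmax O) k := by
  obtain ⟨z, hz, h⟩ := exists_max hO k
  refine ⟨z, hz, fun n hn => ⟨fun hnz => ?_, fun hnl => ?_⟩⟩
  · exact mem_lexmax.2 ⟨z, hz, hnz, fun z' hz' j hj => h z' hz' j (hj.trans_lt hn)⟩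
  · obtain ⟨w, hw, hnw, h'⟩ := mem_lexmax.1 hnl
    have h1 := max_unique (k := n.succ) hz hw
      (fun z' hz' j hj => h z' hz' j ((INat.lt_succ_iff.1 hj).trans_lt hn))
      (fun z' hz' j hj => h' z' hz' j (INat.lt_succ_iff.1 hj)) n.succ le_rfl
    exact (h1 n (INat.lt_succ_self n)).2 hnw

theorem lexmax_mem_orb {F : Fam M} {x : Sq M} (h : ∃ z, z ∈ orb F x) :
    lexmax (orb F x) ∈ orb F x := orb_closed (lexmax_approx h)

end Pool.Agent.H629.AF
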