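import Pool.Agent.H629.AF.Filt

/-!
# Additive filters inside a model: the extension theorem
-/

set_option autoImplicit false
set_option linter.unusedTactic false
set_option linter.unreachableTactic false

namespace Pool.Agent.H629.AF

open Pool.Agent.Helper672.ZFA FirstOrder FirstOrder.Language

universe u

variable {M : Type u} [L.Structure M] [hM : IsModel M]

theorem IntF.agrs {γ : Type u} [ITy M γ] {x z : γ → Sq M}
    (hx : IntF M x) (hz : IntF M z) : IntF M (fun c => agrs (x c) (z c)) := by
  unfold AF.agrs
  exact (by repeat' (first | with_reducible exact IntF.fst' | with_reducible exact IntF.snd' | with_reducible exact IntF.id | with_reducible exact IntF.const _ | with_reducible exact Int.const _ | with_reducible assumption | with_reducible apply Int.and | with_reducible apply Int.or | with_reducible apply Int.not | with_reducible apply Int.imp | with_reducible apply Int.iff | with_reducible apply Int.all | with_reducible apply Int.ex | with_reducible apply Int.ne | with_reducible apply Int.eq | with_reducible apply Int.mem | with_reducible apply Int.ltN | with_reducible apply Int.leN | with_reducible apply Int.subset | with_reducible apply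 Int.ev | with_reducible apply Int.agr | with_reducible apply Int.eqk | with_reducible apply Int.fil | with_reducible apply Int.ult | with_reducible apply Int.addv | with_reducible apply Int.lub | with_reducible apply Int.adm | with_reducible apply Int.chain | with_reducible apply IntF.fst | with_reducible apply IntF.snd | with_reducible apply IntF.val | with_reducible apply IntF.succ | with_reducible apply IntF.plus | with_reducible apply IntF.iadd | with_reducible apply IntF.sadd | with_reducible apply IntF.pair | with_reducible apply IntF.act | with_reducible apply IntF.orb | with_reducible apply IntF.lexmax | with_reducible apply IntF.gen | with_reducible apply IntF.psum | with_reducible apply IntF.app | with_reducible apply IntF.ite | with_reducible apply IntF.sep | with_reducible apply IntF.agrs | with_reducible apply IntF.da | with_reducible apply IntF.step | with_reducible ((refine Int.comp₂ ?_ ?_ ?_); assumption) | with_reducible ((refine Int.comp ?_ ?_); assumption) | with_reducible ((refine IntF.comp₂ ?_ ?_ ?_); assumption) | with_reducible ((refine IntF.comp ?_ ?_); assumption)))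

/-- The sets on which the shift of `B` agrees below `k` with a point of the orbit closure
of `y`. -/
noncomputable def da (F : Fam M) (B y : Sq M) : IPow M (INat M × Pos M) :=
  sep M (fun q : INat M × Pos M => ∃ z, z ∈ orb F y ∧ Agr B z q.1 q.2)

theorem mem_da {F : Fam M} {B y : Sq M} {k : INat M} {m : Pos M} :
    (k, m) ∈ da F B y ↔ ∃ z, z ∈ orb F y ∧ Agr B z k m := by
  unfold da
  rw [mem_sep (by repeat' (first | with_reducible exact IntF.fst' | with_reducible exact IntF.snd' | with_reducible exact IntF.id | with_reducible exact IntF.const _ | with_reducible exact Int.const _ | with_reducible assumption | with_reducible apply Int.and | with_reducible apply Int.or | with_reducible apply Int.not | with_reducible apply Int.imp | with_reducible apply Int.iff | with_reducible apply Int.all | with_reducible apply Int.ex | with_reducible apply Int.ne | with_reducible apply Int.eq | with_reducible apply Int.mem | with_reducible apply Int.ltN | with_reducible apply Int.leN | with_reducible apply Int.subset | with_reducible apply Int.ev | with_reducible apply Int.agr | with_reducible apply Int.eqk | with_reducible apply Int.fil | with_reducible apply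 Int.ult | with_reducible apply Int.addv | with_reducible apply Int.lub | with_reducible apply Int.adm | with_reducible apply Int.chain | with_reducible apply IntF.fst | with_reducible apply IntF.snd | with_reducible apply IntF.val | with_reducible apply IntF.succ | with_reducible apply IntF.plus | with_reducible apply IntF.iadd | with_reducible apply IntF.sadd | with_reducible apply IntF.pair | with_reducible apply IntF.act | with_reducible apply IntF.orb | with_reducible apply IntF.lexmax | with_reducible apply IntF.gen | with_reducible apply IntF.psum | with_reducible apply IntF.app | with_reducible apply IntF.ite | with_reducible apply IntF.sep | with_reducible apply IntF.agrs | with_reducible apply IntF.da | with_reducible apply IntF.step | with_reducible ((refine Int.comp₂ ?_ ?_ ?_); assumption) | with_reducible ((refine Int.comp ?_ ?_); assumption) | with_reducible ((refine IntF.comp₂ ?_ ?_ ?_); assumption) | with_reducible ((refine IntF.comp ?_ ?_); assumption)))]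

theorem IntF.da {γ : Type u} [ITy M γ] {F : γ → Fam M} {B y : γ → Sq M} (hF : IntF M F)
    (hB : IntF M B) (hy : IntF M y) : IntF M (fun c => da (F c) (B c) (y c)) := by
  unfold AF.da
  exact (by repeat' (first | with_reducible exact IntF.fst' | with_reducible exact IntF.snd' | with_reducible exact IntF.id | with_reducible exact IntF.const _ | with_reducible exact Int.const _ | with_reducible assumption | with_reducible apply Int.and | with_reducible apply Int.or | with_reducible apply Int.not | with_reducible apply Int.imp | with_reducible apply Int.iff | with_reducible apply Int.all | with_reducible apply Int.ex | with_reducible apply Int.ne | with_reducible apply Int.eq | with_reducible apply Int.mem | with_reducible apply Int.ltN | with_reducible apply Int.leN | with_reducible apply Int.subset | with_reducible apply Int.ev | with_reducible apply Int.agr | with_reducible apply Int.eqk | with_reducible apply Int.fil | with_reducible apply Int.ult | with_reducible apply Int.addv | with_reducible apply Int.lub | with_reducible apply Int.adm | with_reducible apply Int.chain | with_reducible apply IntF.fst | with_reducible apply IntF.snd | with_reducible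 apply IntF.val | with_reducible apply IntF.succ | with_reducible apply IntF.plus | with_reducible apply IntF.iadd | with_reducible apply IntF.sadd | with_reducible apply IntF.pair | with_reducible apply IntF.act | with_reducible apply IntF.orb | with_reducible apply IntF.lexmax | with_reducible apply IntF.gen | with_reducible apply IntF.psum | with_reducible apply IntF.app | with_reducible apply IntF.ite | with_reducible apply IntF.sep | with_reducible apply IntF.agrs | with_reducible apply IntF.da | with_reducible apply IntF.step | with_reducible ((refine Int.comp₂ ?_ ?_ ?_); assumption) | with_reducible ((refine Int.comp ?_ ?_); assumption) | with_reducible ((refine IntF.comp₂ ?_ ?_ ?_); assumption) | with_reducible ((refine IntF.comp ?_ ?_); assumption)))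

open Classical in
/-- One step of the construction. -/
noncomputable def step (B : Sq M) (F : Fam M) : Fam M :=
  if lexmax (orb F B) ∈ orb F (lexmax (orb F B)) then
    gen F (agrs (lexmax (orb F B)) (lexmax (orb F B)))
  else gen F (da F B (lexmax (orb F B)))

theorem IntF.step (B : Sq M) : IntF M (fun F : Fam M => step B F) := by
  unfold AF.step
  exact (by repeat' (first | with_reducible exact IntF.fst' | with_reducible exact IntF.snd' | with_reducible exact IntF.id | with_reducible exact IntF.const _ | with_reducible exact Int.const _ | with_reducible assumption | with_reducible apply Int.and | with_reducible apply Int.or | with_reducible apply Int.not | with_reducible apply Int.imp | with_reducible apply Int.iff | with_reducible apply Int.all | with_reducible apply Int.ex | with_reducible apply Int.ne | with_reducible apply Int.eq | with_reducible apply Int.mem | with_reducible apply Int.ltN | with_reducible apply Int.leN | with_reducible apply Int.subset | with_reducible apply Int.ev | with_reducible apply Int.agr | with_reducible apply Int.eqk | with_reducible apply Int.fil | with_reducible apply Int.ult | with_reducible apply Int.addv |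 with_reducible apply Int.lub | with_reducible apply Int.adm | with_reducible apply Int.chain | with_reducible apply IntF.fst | with_reducible apply IntF.snd | with_reducible apply IntF.val | with_reducible apply IntF.succ | with_reducible apply IntF.plus | with_reducible apply IntF.iadd | with_reducible apply IntF.sadd | with_reducible apply IntF.pair | with_reducible apply IntF.act | with_reducible apply IntF.orb | with_reducible apply IntF.lexmax | with_reducible apply IntF.gen | with_reducible apply IntF.psum | with_reducible apply IntF.app | with_reducible apply IntF.ite | with_reducible apply IntF.sep | with_reducible apply IntF.agrs | with_reducible apply IntF.da | with_reducible apply IntF.step | with_reducible ((refine Int.comp₂ ?_ ?_ ?_); assumption) | with_reducible ((refine Int.comp ?_ ?_); assumption) | with_reducible ((refine IntF.comp₂ ?_ ?_ ?_); assumption) | with_reducible ((refine IntF.comp ?_ ?_); assumption)))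

theorem le_step (B : Sq M) (F : Fam M) : F ⊆ step B F := by
  unfold step
  split_ifs
  · exact le_gen _ _
  · exact le_gen _ _

section

variable {F G : Fam M} (hUT : UT F) (hG : Fil G) (hFG : F ⊆ G) (hA : Addv G)

include hUT hG hFG

theorem orb_ne (x : Sq M) : ∃ z, z ∈ orb G x := by
  obtain ⟨V, hV, hGV⟩ := hUT G hG hFG
  exact ⟨act V x, (mem_orb_iff hUT hG hFG).2 ⟨V, hV, hGV, rfl⟩⟩

include hA

/-- The orbit closure is invariant. -/
theorem act_mem_orb {x z : Sq M} (hz : z ∈ orb G x) {U : Fam M} (hU : Ult U) (hGU : G ⊆ U) :
    act U z ∈ orb G x := by
  obtain ⟨V, hV, hGV, rfl⟩ := (mem_orb_iff hUT hG hFG).1 hz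
  rw [← act_psum]
  exact (mem_orb_iff hUT hG hFG).2 ⟨_, ult_psum hU hV, hA.psum hGU hV hGV, rfl⟩

theorem addv_agrs {x z : Sq M} (hz : z ∈ orb G x)
    (hst : ∀ U, Ult U → gen G (agrs x z) ⊆ U → act U z = z) :
    Fil (gen G (agrs x z)) ∧ Addv (gen G (agrs x z)) := by
  have h1 := fil_gen_agrs hG hz
  refine ⟨h1, addv_of hUT h1 (fun A hA => le_gen _ _ A (hFG A hA)) ?_⟩
  intro U V hU hGU hV hGV
  have hGU' : G ⊆ U := fun A hA => hGU A (le_gen _ _ A hA)
  have hGV' : G ⊆ V := fun A hA => hGV A (le_gen _ _ A hA)
  refine gen_le (ult_psum hU hV).1 (hA.psum hGU' hV hGV') fun k => ev_agrs.2 ?_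
  refine (act_eq_iff (ult_psum hU hV)).1 ?_ k
  have h2 : act V x = z := (act_eq_iff hV).2 fun k => ev_agrs.1 ((ev_gen hG _ k).sub hGV)
  rw [act_psum, h2]
  exact hst U hU hGU

theorem addv_da {B y : Sq M} (hy : y ∈ orb G B) :
    Fil (gen G (da G B y)) ∧ Addv (gen G (da G B y)) := by
  have h1 : Fil (gen G (da G B y)) := by
    refine fil_gen hG (fun k l m hkl h => ?_) fun C hC k => ?_
    · obtain ⟨z, hz, h2⟩ := mem_da.1 h
      exact mem_da.2 ⟨z, hz, fun n hn => h2 n (hn.trans_le hkl)⟩
    · obtain ⟨V, hV, hGV, rfl⟩ := (mem_orb_iff hUT hG hFG).1 hy
      have h2 : act V (act V B) ∈ orb G (act V B) :=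
        (mem_orb_iff hUT hG hFG).2 ⟨V, hV, hGV, rfl⟩
      have h3 : act (psum V V) B = act V (act V B) := act_psum
      have h4 := (act_eq_iff (ult_psum hV hV)).1 h3 k
      have h5 : C ∈ psum V V := hA.psum hGV hV hGV C hC
      obtain ⟨m, hm, hm'⟩ := (ult_psum hV hV).1.ex
        ((ult_psum hV hV).1.and ((ult_psum hV hV).1.mem_iff.1 h5) h4)
      exact ⟨m, hm, mem_da.2 ⟨_, h2, hm'⟩⟩
  refine ⟨h1, addv_of hUT h1 (fun A hA => le_gen _ _ A (hFG A hA)) ?_⟩
  intro U V hU hGU hV hGV
  have hGU' : G ⊆ U := fun A hA => hGU A (le_gen _ _ A hA)
  have hGV' : G ⊆ V := fun A hA => hGV A (le_gen _ _ A hA)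
  -- the action on `B` of an ultrafilter above the new filter is in the orbit closure of `y`
  have h2 : act V B ∈ orb G y := by
    apply orb_closed
    intro k
    have h3 := (ev_gen hG (da G B y) k).sub hGV
    have h4 := (act_eq_iff hV).1 (rfl : act V B = act V B) k
    obtain ⟨m, hm, hm'⟩ := hV.1.ex (hV.1.and h3 h4)
    obtain ⟨z, hz, h5⟩ := mem_da.1 hm
    exact ⟨z, hz, fun n hn => (h5 n hn).symm.trans (hm' n hn)⟩
  have h3 : act (psum U V) B ∈ orb G y := by
    rw [act_psum]
    exact act_mem_orb hUT hG hFG hA h2 hU hGU'
  refine gen_le (ult_psum hU hV).1 (hA.psum hGU' hV hGV') fun k => ?_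
  exact ((act_eq_iff (ult_psum hU hV)).1 rfl k).mono fun m hm => mem_da.2 ⟨_, h3, hm⟩

theorem step_spec (B : Sq M) : Fil (step B G) ∧ Addv (step B G) := by
  unfold step
  split_ifs with h
  · refine addv_agrs hUT hG hFG hA h fun U hU hGU => ?_
    exact (act_eq_iff hU).2 fun k => ev_agrs.1 ((ev_gen hG _ k).sub hGU)
  · exact addv_da hUT hG hFG hA (lexmax_mem_orb (orb_ne hUT hG hFG B))

/-- Fixed points of the step decide `B`. -/
theorem of_fixed {B : Sq M} (hfix : step B G = G) :
    ∃ H, Fil H ∧ Addv H ∧ G ⊆ H ∧ ∃ y : Sq M, ∀ k, Ev H (Agr B y k) := by
  have hy := lexmax_mem_orb (orb_ne hUT hG hFG B)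
  have h1 : lexmax (orb G B) ∈ orb G (lexmax (orb G B)) := by
    by_contra hcon
    unfold step at hfix
    rw [if_neg hcon] at hfix
    obtain ⟨V, hV, hGV, h2⟩ := (mem_orb_iff hUT hG hFG).1 hy
    apply hcon
    apply orb_closed
    intro k
    have h3 := ev_gen hG (da G B (lexmax (orb G B))) k
    rw [hfix] at h3
    have h4 := (act_eq_iff hV).1 h2 k
    obtain ⟨m, hm, hm'⟩ := hV.1.ex (hV.1.and (h3.sub hGV) h4)
    obtain ⟨z, hz, h5⟩ := mem_da.1 hm
    exact ⟨z, hz, fun n hn => (h5 n hn).symm.trans (hm' n hn)⟩
  unfold step at hfix
  rw [if_pos h1] at hfix
  have h2 := addv_agrs hUT hG hFG hA hy (fun U hU hGU => by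
    refine (act_eq_iff hU).2 fun k => ?_
    have h3 := ev_gen hG (agrs (lexmax (orb G B)) (lexmax (orb G B))) k
    rw [hfix] at h3
    exact ev_agrs.1 (h3.sub fun A hA => hGU A (le_gen _ _ A hA)))
  exact ⟨_, h2.1, h2.2, le_gen _ _, lexmax (orb G B), fun k => ev_agrs.1 (ev_gen hG _ k)⟩

end

/-- The predicate that is kept along the construction. -/
def Good (F G : Fam M) : Prop := Fil G ∧ Addv G ∧ F ⊆ G

theorem int_good (F : Fam M) : Int M (fun G : Fam M => Good F G) := by
  unfold Good
  exact (by repeat' (first | with_reducible exact IntF.fst' | with_reducible exact IntF.snd' | with_reducible exact IntF.id | with_reducible exact IntF.const _ | with_reducible exact Int.const _ | with_reducible assumption | with_reducible apply Int.and | with_reducible apply Int.or | with_reducible apply Int.not | with_reducible apply Int.imp | with_reducible apply Int.iff | with_reducible apply Int.all | with_reducible apply Int.ex | with_reducible apply Int.ne | with_reducible apply Int.eq | with_reducible apply Int.mem | with_reducible apply Int.ltN | with_reducible apply Int.leN | with_reducible apply Int.subset | with_reducible apply Int.ev | with_reducible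 apply Int.agr | with_reducible apply Int.eqk | with_reducible apply Int.fil | with_reducible apply Int.ult | with_reducible apply Int.addv | with_reducible apply Int.lub | with_reducible apply Int.adm | with_reducible apply Int.chain | with_reducible apply IntF.fst | with_reducible apply IntF.snd | with_reducible apply IntF.val | with_reducible apply IntF.succ | with_reducible apply IntF.plus | with_reducible apply IntF.iadd | with_reducible apply IntF.sadd | with_reducible apply IntF.pair | with_reducible apply IntF.act | with_reducible apply IntF.orb | with_reducible apply IntF.lexmax | with_reducible apply IntF.gen | with_reducible apply IntF.psum | with_reducible apply IntF.app | with_reducible apply IntF.ite | with_reducible apply IntF.sep | with_reducible apply IntF.agrs | with_reducible apply IntF.da | with_reducible apply IntF.step | with_reducible ((refine Int.comp₂ ?_ ?_ ?_); assumption) | with_reducible ((refine Int.comp ?_ ?_); assumption) | with_reducible ((refine IntF.comp₂ ?_ ?_ ?_); assumption) | with_reducible ((refine IntF.comp ?_ ?_); assumption)))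

theorem good_lub {F : Fam M} {C : IPow M (Fam M)} (hC : ∃ G, G ∈ C) (hg : ∀ G, G ∈ C → Good F G)
    (hch : Chn (fun G H : Fam M => G ⊆ H) C) {H : Fam M}
    (hH : Lub (fun G H : Fam M => G ⊆ H) C H) : Good F H := by
  have hi : Int M (fun A : IPow M (Pos M) => ∃ G : Fam M, G ∈ C ∧ A ∈ G) := (by repeat' (first | with_reducible exact IntF.fst' | with_reducible exact IntF.snd' | with_reducible exact IntF.id | with_reducible exact IntF.const _ | with_reducible exact Int.const _ | with_reducible assumption | with_reducible apply Int.and | with_reducible apply Int.or | with_reducible apply Int.not | with_reducible apply Int.imp | with_reducible apply Int.iff | with_reducible apply Int.all | with_reducible apply Int.ex | with_reducible apply Int.ne | with_reducible apply Int.eq | with_reducible apply Int.mem | with_reducible apply Int.ltN | with_reducible apply Int.leN | with_reducible apply Int.subset | with_reducible apply Int.ev | with_reducible apply Int.agr | with_reducible apply Int.eqk | with_reducible apply Int.fil | with_reducible apply Int.ult | with_reducible apply Int.addv | with_reducible apply Int.lub | with_reducible apply Int.adm | with_reducible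 apply Int.chain | with_reducible apply IntF.fst | with_reducible apply IntF.snd | with_reducible apply IntF.val | with_reducible apply IntF.succ | with_reducible apply IntF.plus | with_reducible apply IntF.iadd | with_reducible apply IntF.sadd | with_reducible apply IntF.pair | with_reducible apply IntF.act | with_reducible apply IntF.orb | with_reducible apply IntF.lexmax | with_reducible apply IntF.gen | with_reducible apply IntF.psum | with_reducible apply IntF.app | with_reducible apply IntF.ite | with_reducible apply IntF.sep | with_reducible apply IntF.agrs | with_reducible apply IntF.da | with_reducible apply IntF.step | with_reducible ((refine Int.comp₂ ?_ ?_ ?_); assumption) | with_reducible ((refine Int.comp ?_ ?_); assumption) | with_reducible ((refine IntF.comp₂ ?_ ?_ ?_); assumption) | with_reducible ((refine IntF.comp ?_ ?_); assumption)))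
  have h1 : ∀ A, A ∈ H ↔ ∃ G : Fam M, G ∈ C ∧ A ∈ G := by
    intro A
    constructor
    · intro hAH
      have h2 : H ⊆ sep M (fun A : IPow M (Pos M) => ∃ G : Fam M, G ∈ C ∧ A ∈ G) :=
        hH.2 _ fun G hG A hA => (mem_sep hi).2 ⟨G, hG, hA⟩
      exact (mem_sep hi).1 (h2 A hAH)
    · rintro ⟨G, hG, hA⟩
      exact hH.1 G hG A hA
  obtain ⟨G0, hG0⟩ := hC
  refine ⟨⟨?_, ?_, ?_, ?_⟩, ?_, ?_⟩
  · obtain ⟨A, hA⟩ := (hg G0 hG0).1.1
    exact ⟨A, (h1 A).2 ⟨G0, hG0, hA⟩⟩
  · intro A hA
    obtain ⟨G, hG, hA⟩ := (h1 A).1 hA
    exact (hg G hG).1.2.1 A hA
  · intro A B hA hAB
    obtain ⟨G, hG, hA⟩ := (h1 A).1 hA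
    exact (h1 B).2 ⟨G, hG, (hg G hG).1.2.2.1 A B hA hAB⟩
  · intro A B hA hB
    obtain ⟨G, hG, hA⟩ := (h1 A).1 hA
    obtain ⟨G', hG', hB⟩ := (h1 B).1 hB
    rcases hch G hG G' hG' with h | h
    · obtain ⟨D, hD, h2⟩ := (hg G' hG').1.2.2.2 A B (h A hA) hB
      exact ⟨D, (h1 D).2 ⟨G', hG', hD⟩, h2⟩
    · obtain ⟨D, hD, h2⟩ := (hg G hG).1.2.2.2 A B hA (h B hB)
      exact ⟨D, (h1 D).2 ⟨G, hG, hD⟩, h2⟩
  · intro V hV hHV A hA
    obtain ⟨G, hG, hA⟩ := (h1 A).1 hA
    exact ((hg G hG).2.1 V hV (fun A hA => hHV A (hH.1 G hG A hA)) A hA).sub (hH.1 G hG)
  · exact fun A hA => hH.1 G0 hG0 A ((hg G0 hG0).2.2 A hA)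

theorem exists_lub (C : IPow M (Fam M)) : ∃ H, Lub (fun G H : Fam M => G ⊆ H) C H := by
  have hi : Int M (fun A : IPow M (Pos M) => ∃ G : Fam M, G ∈ C ∧ A ∈ G) := (by repeat' (first | with_reducible exact IntF.fst' | with_reducible exact IntF.snd' | with_reducible exact IntF.id | with_reducible exact IntF.const _ | with_reducible exact Int.const _ | with_reducible assumption | with_reducible apply Int.and | with_reducible apply Int.or | with_reducible apply Int.not | with_reducible apply Int.imp | with_reducible apply Int.iff | with_reducible apply Int.all | with_reducible apply Int.ex | with_reducible apply Int.ne | with_reducible apply Int.eq | with_reducible apply Int.mem | with_reducible apply Int.ltN | with_reducible apply Int.leN | with_reducible apply Int.subset | with_reducible apply Int.ev | with_reducible apply Int.agr | with_reducible apply Int.eqk | with_reducible apply Int.fil | with_reducible apply Int.ult | with_reducible apply Int.addv | with_reducible apply Int.lub | with_reducible apply Int.adm | with_reducible apply Int.chain | with_reducible apply IntF.fst | with_reducible apply IntF.snd | with_reducible apply IntF.val | with_reducible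 apply IntF.succ | with_reducible apply IntF.plus | with_reducible apply IntF.iadd | with_reducible apply IntF.sadd | with_reducible apply IntF.pair | with_reducible apply IntF.act | with_reducible apply IntF.orb | with_reducible apply IntF.lexmax | with_reducible apply IntF.gen | with_reducible apply IntF.psum | with_reducible apply IntF.app | with_reducible apply IntF.ite | with_reducible apply IntF.sep | with_reducible apply IntF.agrs | with_reducible apply IntF.da | with_reducible apply IntF.step | with_reducible ((refine Int.comp₂ ?_ ?_ ?_); assumption) | with_reducible ((refine Int.comp ?_ ?_); assumption) | with_reducible ((refine IntF.comp₂ ?_ ?_ ?_); assumption) | with_reducible ((refine IntF.comp ?_ ?_); assumption)))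
  refine ⟨sep M _, fun G hG A hA => (mem_sep hi).2 ⟨G, hG, hA⟩, fun H hH A hA => ?_⟩
  obtain ⟨G, hG, hA⟩ := (mem_sep hi).1 hA
  exact hH G hG A hA

theorem main_ut {F : Fam M} (hF : Fil F) (hA : Addv F) (hUT : UT F) (B : Sq M) :
    ∃ H, Fil H ∧ Addv H ∧ F ⊆ H ∧ ∃ y : Sq M, ∀ k, Ev H (Agr B y k) := by
  classical
  let f : Fam M → Fam M := fun G => if Good F G then step B G else G
  have hf : IntF M f := by
    have h1 := int_good F
    have h2 := IntF.step B
    show IntF M (fun G => if Good F G then step B G else G)
    exact IntF.ite h1 h2 IntF.id
  have hle : Int M (fun q : Fam M × Fam M => q.1 ⊆ q.2) := (by repeat' (first | with_reducible exact IntF.fst' | with_reducible exact IntF.snd' | with_reducible exact IntF.id | with_reducible exact IntF.const _ | with_reducible exact Int.const _ | with_reducible assumption | with_reducible apply Int.and | with_reducible apply Int.or | with_reducible apply Int.not | with_reducible apply Int.imp | with_reducible apply Int.iff | with_reducible apply Int.all | with_reducible apply Int.ex | with_reducible apply Int.ne | with_reducible apply Int.eq | with_reducible apply Int.mem | with_reducible apply Int.ltN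 | with_reducible apply Int.leN | with_reducible apply Int.subset | with_reducible apply Int.ev | with_reducible apply Int.agr | with_reducible apply Int.eqk | with_reducible apply Int.fil | with_reducible apply Int.ult | with_reducible apply Int.addv | with_reducible apply Int.lub | with_reducible apply Int.adm | with_reducible apply Int.chain | with_reducible apply IntF.fst | with_reducible apply IntF.snd | with_reducible apply IntF.val | with_reducible apply IntF.succ | with_reducible apply IntF.plus | with_reducible apply IntF.iadd | with_reducible apply IntF.sadd | with_reducible apply IntF.pair | with_reducible apply IntF.act | with_reducible apply IntF.orb | with_reducible apply IntF.lexmax | with_reducible apply IntF.gen | with_reducible apply IntF.psum | with_reducible apply IntF.app | with_reducible apply IntF.ite | with_reducible apply IntF.sep | with_reducible apply IntF.agrs | with_reducible apply IntF.da | with_reducible apply IntF.step | with_reducible ((refine Int.comp₂ ?_ ?_ ?_); assumption) | with_reducible ((refine Int.comp ?_ ?_); assumption) | with_reducible ((refine IntF.comp₂ ?_ ?_ ?_); assumption) | with_reducible ((refine IntF.comp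 ?_ ?_); assumption)))
  obtain ⟨G, hG, hfix⟩ := bourbaki_witt (le := fun G H : Fam M => G ⊆ H) hle
    (fun G A hA => hA) (fun G H K h1 h2 A hA => h2 A (h1 A hA))
    (fun G H h1 h2 => IPow.ext' fun A => ⟨h1 A, h2 A⟩) (f := f) hf (by
      intro G
      by_cases h : Good F G
      · simp only [f, if_pos h]
        exact le_step B G
      · simp only [f, if_neg h]
        exact fun A hA => hA) F (fun C _ _ => exists_lub C) (int_good F)
      ⟨hF, hA, fun A hA => hA⟩ (by
      intro G h
      simp only [f, if_pos h]
      have h1 := step_spec hUT h.1 h.2.2 h.2.1 B
      exact ⟨h1.1, h1.2, fun A hA => le_step B G A (h.2.2 A hA)⟩)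
      (fun C hC hg hch s hs => good_lub hC hg hch hs)
  simp only [f, if_pos hG] at hfix
  obtain ⟨H, h1, h2, h3, h4⟩ := of_fixed hUT hG.1 hG.2.2 hG.2.1 hfix
  exact ⟨H, h1, h2, fun A hA => h3 A (hG.2.2 A hA), h4⟩

/-- **The extension theorem**, inside a model. -/
theorem main {F : Fam M} (hF : Fil F) (hA : Addv F) (B : IPow M (Pos M)) :
    ∃ H, Fil H ∧ Addv H ∧ F ⊆ H ∧ (B ∈ H ∨ Ev H (fun m => ¬ m ∈ B)) := by
  by_cases hUT : UT F
  · have hi : Int M (fun n : INat M => ∃ m : Pos M, m ∈ B ∧ m.1 = n) := (by repeat' (first | with_reducible exact IntF.fst' | with_reducible exact IntF.snd' | with_reducible exact IntF.id | with_reducible exact IntF.const _ | with_reducible exact Int.const _ | with_reducible assumption | with_reducible apply Int.and | with_reducible apply Int.or | with_reducible apply Int.not | with_reducible apply Int.imp | with_reducible apply Int.iff | with_reducible apply Int.all | with_reducible apply Int.ex | with_reducible apply Int.ne | with_reducible apply Int.eq | with_reducible apply Int.mem | with_reducible apply Int.ltN | with_reducible apply Int.leN | with_reducible apply Int.subset | with_reducible apply Int.ev | with_reducible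 apply Int.agr | with_reducible apply Int.eqk | with_reducible apply Int.fil | with_reducible apply Int.ult | with_reducible apply Int.addv | with_reducible apply Int.lub | with_reducible apply Int.adm | with_reducible apply Int.chain | with_reducible apply IntF.fst | with_reducible apply IntF.snd | with_reducible apply IntF.val | with_reducible apply IntF.succ | with_reducible apply IntF.plus | with_reducible apply IntF.iadd | with_reducible apply IntF.sadd | with_reducible apply IntF.pair | with_reducible apply IntF.act | with_reducible apply IntF.orb | with_reducible apply IntF.lexmax | with_reducible apply IntF.gen | with_reducible apply IntF.psum | with_reducible apply IntF.app | with_reducible apply IntF.ite | with_reducible apply IntF.sep | with_reducible apply IntF.agrs | with_reducible apply IntF.da | with_reducible apply IntF.step | with_reducible ((refine Int.comp₂ ?_ ?_ ?_); assumption) | with_reducible ((refine Int.comp ?_ ?_); assumption) | with_reducible ((refine IntF.comp₂ ?_ ?_ ?_); assumption) | with_reducible ((refine IntF.comp ?_ ?_); assumption)))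
    obtain ⟨H, h1, h2, h3, y, hy⟩ := main_ut hF hA hUT
      (sep M (fun n : INat M => ∃ m : Pos M, m ∈ B ∧ m.1 = n))
    refine ⟨H, h1, h2, h3, ?_⟩
    have h4 := hy (INat.succ 0)
    have h5 : ∀ m : Pos M, Agr (sep M (fun n : INat M => ∃ m : Pos M, m ∈ B ∧ m.1 = n)) y
        (INat.succ 0) m → (m ∈ B ↔ (0 : INat M) ∈ y) := by
      intro m hm
      rw [← hm 0 (INat.lt_succ_self 0), mem_sep hi, plus_zero]
      constructor
      · exact fun h => ⟨m, h, rfl⟩
      · rintro ⟨m', h, h'⟩
        rwa [← Subtype.ext h']
    by_cases h0 : (0 : INat M) ∈ y
    · left
      rw [h1.mem_iff]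
      exact h4.mono fun m hm => (h5 m hm).2 h0
    · right
      exact h4.mono fun m hm h => h0 ((h5 m hm).1 h)
  · unfold UT at hUT
    push Not at hUT
    obtain ⟨G, hG, hFG, hno⟩ := hUT
    by_cases h : ∃ C, C ∈ G ∧ ∀ m, m ∈ C → ¬ m ∈ B
    · refine ⟨G, hG, fun V hV hGV => absurd hGV (hno V hV), hFG, Or.inr ?_⟩
      exact h
    · push Not at h
      have hi : Int M (fun q : INat M × Pos M => q.2 ∈ B) := (by repeat' (first | with_reducible exact IntF.fst' | with_reducible exact IntF.snd' | with_reducible exact IntF.id | with_reducible exact IntF.const _ | with_reducible exact Int.const _ | with_reducible assumption | with_reducible apply Int.and | with_reducible apply Int.or | with_reducible apply Int.not | with_reducible apply Int.imp | with_reducible apply Int.iff | with_reducible apply Int.all | with_reducible apply Int.ex | with_reducible apply Int.ne | with_reducible apply Int.eq | with_reducible apply Int.mem | with_reducible apply Int.ltN | with_reducible apply Int.leN | with_reducible apply Int.subset | with_reducible apply Int.ev | with_reducible apply Int.agr | with_reducible apply Int.eqk | with_reducible apply Int.fil | with_reducible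 apply Int.ult | with_reducible apply Int.addv | with_reducible apply Int.lub | with_reducible apply Int.adm | with_reducible apply Int.chain | with_reducible apply IntF.fst | with_reducible apply IntF.snd | with_reducible apply IntF.val | with_reducible apply IntF.succ | with_reducible apply IntF.plus | with_reducible apply IntF.iadd | with_reducible apply IntF.sadd | with_reducible apply IntF.pair | with_reducible apply IntF.act | with_reducible apply IntF.orb | with_reducible apply IntF.lexmax | with_reducible apply IntF.gen | with_reducible apply IntF.psum | with_reducible apply IntF.app | with_reducible apply IntF.ite | with_reducible apply IntF.sep | with_reducible apply IntF.agrs | with_reducible apply IntF.da | with_reducible apply IntF.step | with_reducible ((refine Int.comp₂ ?_ ?_ ?_); assumption) | with_reducible ((refine Int.comp ?_ ?_); assumption) | with_reducible ((refine IntF.comp₂ ?_ ?_ ?_); assumption) | with_reducible ((refine IntF.comp ?_ ?_); assumption)))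
      refine ⟨gen G (sep M (fun q : INat M × Pos M => q.2 ∈ B)), ?_, ?_, ?_, Or.inl ?_⟩
      · refine fil_gen hG (fun k l m _ h2 => ?_) (fun C hC k => ?_)
        · rw [mem_sep hi] at h2 ⊢
          exact h2
        · obtain ⟨m, hm, hmB⟩ := h C hC
          exact ⟨m, hm, (mem_sep hi).2 hmB⟩
      · exact fun V hV hGV => absurd (fun A hA => hGV A (le_gen _ _ A hA)) (hno V hV)
      · exact fun A hA => le_gen _ _ A (hFG A hA)
      · obtain ⟨C, hC⟩ := hG.1
        exact mem_gen.2 ⟨C, hC, 0, fun m _ hm => (mem_sep hi).1 hm⟩

end Pool.Agent.H629.AF
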