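import Pool.Graph.R_seed8.Helper672.ZFA.Nat

/-!
# Addition of natural numbers inside a model
-/

set_option autoImplicit false
set_option linter.unusedTactic false
set_option linter.unreachableTactic false

namespace Pool.Agent.H629.AF

open Pool.Agent.Helper672.ZFA FirstOrder FirstOrder.Language

universe u

variable {M : Type u} [L.Structure M] [hM : IsModel M]

/-- Internal addition. -/
noncomputable def iadd (m n : INat M) : INat M := irec m (fun _ x => x.succ) n

theorem int_succ2 : IntF M (fun q : INat M × INat M => (fun (_ x : INat M) => x.succ) q.1 q.2) :=
  (by repeat' (first | with_reducible exact IntF.fst' | with_reducible exact IntF.snd' | with_reducible exact IntF.id | with_reducible exact IntF.const _ | with_reducible exact Int.const _ | with_reducible assumption | with_reducible apply Int.and | with_reducible apply Int.or | with_reducible apply Int.not | with_reducible apply Int.imp | with_reducible apply Int.iff | with_reducible apply Int.all | with_reducible apply Int.ex | with_reducible apply Int.ne | with_reducible apply Int.eq | with_reducible apply Int.mem | with_reducible apply Int.ltN | with_reducible apply Int.leN | with_reducible apply Int.subset | with_reducible apply Int.ev | with_reducible apply Int.agr | with_reducible apply Int.eqk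 | with_reducible apply Int.fil | with_reducible apply Int.ult | with_reducible apply Int.addv | with_reducible apply Int.lub | with_reducible apply Int.adm | with_reducible apply Int.chain | with_reducible apply IntF.fst | with_reducible apply IntF.snd | with_reducible apply IntF.val | with_reducible apply IntF.succ | with_reducible apply IntF.plus | with_reducible apply IntF.iadd | with_reducible apply IntF.sadd | with_reducible apply IntF.pair | with_reducible apply IntF.act | with_reducible apply IntF.orb | with_reducible apply IntF.lexmax | with_reducible apply IntF.gen | with_reducible apply IntF.psum | with_reducible apply IntF.app | with_reducible apply IntF.ite | with_reducible apply IntF.sep | with_reducible apply IntF.agrs | with_reducible apply IntF.da | with_reducible apply IntF.step | with_reducible ((refine Int.comp₂ ?_ ?_ ?_); assumption) | with_reducible ((refine Int.comp ?_ ?_); assumption) | with_reducible ((refine IntF.comp₂ ?_ ?_ ?_); assumption) | with_reducible ((refine IntF.comp ?_ ?_); assumption)))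

theorem IntF.iadd {γ : Type u} [ITy M γ] {f g : γ → INat M} (hf : IntF M f) (hg : IntF M g) :
    IntF M (fun c => iadd (f c) (g c)) := by
  unfold AF.iadd
  exact IntF.irec (f := fun (_ : γ) (_ : INat M) (x : INat M) => x.succ) hf (by repeat' (first | with_reducible exact IntF.fst' | with_reducible exact IntF.snd' | with_reducible exact IntF.id | with_reducible exact IntF.const _ | with_reducible exact Int.const _ | with_reducible assumption | with_reducible apply Int.and | with_reducible apply Int.or | with_reducible apply Int.not | with_reducible apply Int.imp | with_reducible apply Int.iff | with_reducible apply Int.all | with_reducible apply Int.ex | with_reducible apply Int.ne | with_reducible apply Int.eq | with_reducible apply Int.mem | with_reducible apply Int.ltN | with_reducible apply Int.leN | with_reducible apply Int.subset | with_reducible apply Int.ev | with_reducible apply Int.agr | with_reducible apply Int.eqk | with_reducible apply Int.fil | with_reducible apply Int.ult | with_reducible apply Int.addv | with_reducible apply Int.lub | with_reducible apply Int.adm | with_reducible apply Int.chain | with_reducible apply IntF.fst | with_reducible apply IntF.snd | with_reducible apply IntF.val | with_reducible apply IntF.succ | with_reducible apply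 IntF.plus | with_reducible apply IntF.iadd | with_reducible apply IntF.sadd | with_reducible apply IntF.pair | with_reducible apply IntF.act | with_reducible apply IntF.orb | with_reducible apply IntF.lexmax | with_reducible apply IntF.gen | with_reducible apply IntF.psum | with_reducible apply IntF.app | with_reducible apply IntF.ite | with_reducible apply IntF.sep | with_reducible apply IntF.agrs | with_reducible apply IntF.da | with_reducible apply IntF.step | with_reducible ((refine Int.comp₂ ?_ ?_ ?_); assumption) | with_reducible ((refine Int.comp ?_ ?_); assumption) | with_reducible ((refine IntF.comp₂ ?_ ?_ ?_); assumption) | with_reducible ((refine IntF.comp ?_ ?_); assumption))) hg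

theorem iadd_zero (m : INat M) : iadd m 0 = m := irec_zero int_succ2

theorem iadd_succ (m n : INat M) : iadd m n.succ = (iadd m n).succ := irec_succ int_succ2 n

theorem iadd_assoc (a b n : INat M) : iadd (iadd a b) n = iadd a (iadd b n) := by
  refine INat.ind (p := fun n : INat M => iadd (iadd a b) n = iadd a (iadd b n)) (by repeat' (first | with_reducible exact IntF.fst' | with_reducible exact IntF.snd' | with_reducible exact IntF.id | with_reducible exact IntF.const _ | with_reducible exact Int.const _ | with_reducible assumption | with_reducible apply Int.and | with_reducible apply Int.or | with_reducible apply Int.not | with_reducible apply Int.imp | with_reducible apply Int.iff | with_reducible apply Int.all | with_reducible apply Int.ex | with_reducible apply Int.ne | with_reducible apply Int.eq | with_reducible apply Int.mem | with_reducible apply Int.ltN | with_reducible apply Int.leN | with_reducible apply Int.subset | with_reducible apply Int.ev | with_reducible apply Int.agr | with_reducible apply Int.eqk | with_reducible apply Int.fil | with_reducible apply Int.ult | with_reducible apply Int.addv | with_reducible apply Int.lub | with_reducible apply Int.adm | with_reducible apply Int.chain | with_reducible apply IntF.fst | with_reducible apply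 IntF.snd | with_reducible apply IntF.val | with_reducible apply IntF.succ | with_reducible apply IntF.plus | with_reducible apply IntF.iadd | with_reducible apply IntF.sadd | with_reducible apply IntF.pair | with_reducible apply IntF.act | with_reducible apply IntF.orb | with_reducible apply IntF.lexmax | with_reducible apply IntF.gen | with_reducible apply IntF.psum | with_reducible apply IntF.app | with_reducible apply IntF.ite | with_reducible apply IntF.sep | with_reducible apply IntF.agrs | with_reducible apply IntF.da | with_reducible apply IntF.step | with_reducible ((refine Int.comp₂ ?_ ?_ ?_); assumption) | with_reducible ((refine Int.comp ?_ ?_); assumption) | with_reducible ((refine IntF.comp₂ ?_ ?_ ?_); assumption) | with_reducible ((refine IntF.comp ?_ ?_); assumption))) ?_ ?_ n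
  · rw [iadd_zero, iadd_zero]
  · intro n ih
    rw [iadd_succ, iadd_succ, iadd_succ, ih]

theorem iadd_ne_zero {a b : INat M} (h : a ≠ 0) : iadd a b ≠ 0 := by
  rcases INat.eq_zero_or_succ b with rfl | ⟨c, rfl⟩
  · rwa [iadd_zero]
  · rw [iadd_succ]
    exact INat.succ_ne_zero _

variable (M) in
/-- The positive natural numbers of the model. -/
abbrev Pos : Type u := {n : INat M // n ≠ 0}

instance : Fact (Int M (fun n : INat M => n ≠ 0)) := ⟨(by repeat' (first | with_reducible exact IntF.fst' | with_reducible exact IntF.snd' | with_reducible exact IntF.id | with_reducible exact IntF.const _ | with_reducible exact Int.const _ | with_reducible assumption | with_reducible apply Int.and | with_reducible apply Int.or | with_reducible apply Int.not | with_reducible apply Int.imp | with_reducible apply Int.iff | with_reducible apply Int.all | with_reducible apply Int.ex | with_reducible apply Int.ne | with_reducible apply Int.eq | with_reducible apply Int.mem | with_reducible apply Int.ltN | with_reducible apply Int.leN | with_reducible apply Int.subset | with_reducible apply Int.ev | with_reducible apply Int.agr | with_reducible apply Int.eqk | with_reducible apply Int.fil | with_reducible apply Int.ult | with_reducible apply Int.addv | with_reducible apply Int.lub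 | with_reducible apply Int.adm | with_reducible apply Int.chain | with_reducible apply IntF.fst | with_reducible apply IntF.snd | with_reducible apply IntF.val | with_reducible apply IntF.succ | with_reducible apply IntF.plus | with_reducible apply IntF.iadd | with_reducible apply IntF.sadd | with_reducible apply IntF.pair | with_reducible apply IntF.act | with_reducible apply IntF.orb | with_reducible apply IntF.lexmax | with_reducible apply IntF.gen | with_reducible apply IntF.psum | with_reducible apply IntF.app | with_reducible apply IntF.ite | with_reducible apply IntF.sep | with_reducible apply IntF.agrs | with_reducible apply IntF.da | with_reducible apply IntF.step | with_reducible ((refine Int.comp₂ ?_ ?_ ?_); assumption) | with_reducible ((refine Int.comp ?_ ?_); assumption) | with_reducible ((refine IntF.comp₂ ?_ ?_ ?_); assumption) | with_reducible ((refine IntF.comp ?_ ?_); assumption)))⟩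

/-- Addition on the positive natural numbers. -/
noncomputable def sadd (a b : Pos M) : Pos M := ⟨iadd a.1 b.1, iadd_ne_zero a.2⟩

theorem IntF.sadd {γ : Type u} [ITy M γ] {f g : γ → Pos M} (hf : IntF M f) (hg : IntF M g) :
    IntF M (fun c => sadd (f c) (g c)) := by
  apply IntF.mk
  exact IntF.iadd (IntF.val hf) (IntF.val hg)

/-- Addition of a positive natural number and a natural number. -/
noncomputable def plus (a : Pos M) (n : INat M) : INat M := iadd a.1 n

theorem IntF.plus {γ : Type u} [ITy M γ] {f : γ → Pos M} {g : γ → INat M} (hf : IntF M f)
    (hg : IntF M g) : IntF M (fun c => plus (f c) (g c)) :=
  IntF.iadd (IntF.val hf) hg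

theorem plus_plus (a b : Pos M) (n : INat M) : plus (sadd a b) n = plus a (plus b n) :=
  iadd_assoc a.1 b.1 n

theorem plus_zero (a : Pos M) : plus a 0 = a.1 := iadd_zero a.1

end Pool.Agent.H629.AF
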