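import Pool.Agent.H629.AF.Main
import Pool.Agent.H629.AF.Defs
import Pool.Graph.R_seed8.Helper672.SIK.Bridge

/-!
# Translation between the language of set theory and internal types
-/

set_option autoImplicit false
set_option linter.unusedTactic false
set_option linter.unreachableTactic false

namespace Pool.Agent.H629.AF

open Pool.Agent.Helper672.Plain FirstOrder
open Pool.Agent.Helper672

universe u

variable {M : Type u} [LSet.Structure M] [hZ : Zermelo M]

attribute [local instance] toL

instance isM : ZFA.IsModel M := isModel_toL

theorem mext {x y : M} (h : ∀ z, Mem z x ↔ Mem z y) : x = y := hZ.ext x y h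

/-- Elements of the code of an internal set. -/
theorem mem_code {α : Type u} [ZFA.ITy M α] {s : ZFA.IPow M α} {z : M} :
    Mem z (ZFA.code s) ↔ ∃ a, a ∈ s ∧ ZFA.code a = z := ZFA.mem_code_pow (s := s) (z := z)

theorem code_mem {α : Type u} [ZFA.ITy M α] {s : ZFA.IPow M α} {a : α} :
    Mem (ZFA.code a) (ZFA.code (M := M) s) ↔ a ∈ s := ZFA.mem_code_iff (s := s) (a := a)

/-- Every set of codes is a code. -/
theorem exists_code {α : Type u} [ZFA.ITy M α] {z : M}
    (h : ∀ w, Mem w z → ∃ a : α, ZFA.code a = w) : ∃ s : ZFA.IPow M α, ZFA.code s = z := by
  refine ⟨⟨fun a => Mem (ZFA.code a) z, ⟨z, fun a => Iff.rfl⟩⟩, mext fun w => ?_⟩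
  rw [mem_code]
  constructor
  · rintro ⟨a, ha, rfl⟩
    exact ha
  · intro hw
    obtain ⟨a, rfl⟩ := h w hw
    exact ⟨a, hw, rfl⟩

theorem not_mem_zero {z : M} : ¬ Mem z (0 : ZFA.INat M).val := fun h =>
  ZFA.INat.not_mem_zero (M := M) (z := z) (mem_toL.2 h)

theorem mem_succ {n : ZFA.INat M} {z : M} : Mem z n.succ.val ↔ Mem z n.val ∨ z = n.val :=
  ZFA.INat.mem_succ (M := M) (n := n) (z := z)

omit hZ in
theorem isNat_iff {z : M} : IsNat z ↔ ∃ n : ZFA.INat M, n.val = z := by
  have h : ∀ i : M, ZFA.Ind i ↔ IsInductive i := by
    intro i
    constructor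
    · rintro ⟨⟨e, h1, -, h2⟩, h3⟩
      refine ⟨⟨e, h1, h2⟩, fun n hn => ?_⟩
      obtain ⟨s, h4, -, h5⟩ := h3 n hn
      exact ⟨s, h4, h5⟩
    · rintro ⟨⟨e, h1, h2⟩, h3⟩
      refine ⟨⟨e, h1, trivial, h2⟩, fun n hn => ?_⟩
      obtain ⟨s, h4, h5⟩ := h3 n hn
      exact ⟨s, h4, trivial, h5⟩
  constructor
  · intro hz
    exact ⟨⟨z, fun i hi => hz i ((h i).1 hi)⟩, rfl⟩
  · rintro ⟨n, rfl⟩ i hi
    exact n.prop i ((h i).2 hi)

theorem isPos_iff {z : M} : IsPos z ↔ ∃ s : Pos M, ZFA.code s = z := by
  constructor
  · rintro ⟨h1, w, hw⟩
    obtain ⟨n, rfl⟩ := isNat_iff.1 h1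
    refine ⟨⟨n, fun h => ?_⟩, rfl⟩
    rw [h] at hw
    exact not_mem_zero hw
  · rintro ⟨⟨n, hn⟩, rfl⟩
    refine ⟨isNat_iff.2 ⟨n, rfl⟩, ?_⟩
    rcases ZFA.INat.zero_le' n with h | h
    · exact ⟨_, h⟩
    · exact absurd h.symm hn

theorem pos_code (s : Pos M) : IsPos (ZFA.code (M := M) s) := isPos_iff.2 ⟨s, rfl⟩

theorem empty_iff {e : M} : IsEmptySet e ↔ e = (0 : ZFA.INat M).val := by
  constructor
  · intro h
    exact mext fun z => ⟨fun h1 => absurd h1 (h z), fun h1 => absurd h1 not_mem_zero⟩
  · rintro rfl z h
    exact not_mem_zero h

theorem succ_iff {n : ZFA.INat M} {s : M} : IsSucc s n.val ↔ s = n.succ.val := by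
  constructor
  · intro h
    exact mext fun z => (h z).trans mem_succ.symm
  · rintro rfl z
    exact mem_succ

theorem triple_iff {m n k s : M} : TripleIn m n k s ↔ Mem (ZFA.op (ZFA.op m n) k) s := by
  unfold TripleIn
  constructor
  · rintro ⟨p, q, h1, h2, h3⟩
    rw [← isOrdPair_toL, ZFA.isOrdPair_iff_op] at h1 h2
    subst h1 h2
    exact h3
  · intro h
    exact ⟨_, _, isOrdPair_toL.1 (ZFA.isOrdPair_iff_op.2 rfl),
      isOrdPair_toL.1 (ZFA.isOrdPair_iff_op.2 rfl), h⟩

theorem isSum_iff {a b : ZFA.INat M} {k : M} : IsSum a.val b.val k ↔ k = (iadd a b).val := by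
  constructor
  · intro h
    have hi : ZFA.Int M (fun q : (ZFA.INat M × ZFA.INat M) × ZFA.INat M =>
        iadd q.1.1 q.1.2 = q.2) := open Pool.Agent.Helper672.ZFA in (by repeat' (first | with_reducible exact IntF.fst' | with_reducible exact IntF.snd' | with_reducible exact IntF.id | with_reducible exact IntF.const _ | with_reducible exact Int.const _ | with_reducible assumption | with_reducible apply Int.and | with_reducible apply Int.or | with_reducible apply Int.not | with_reducible apply Int.imp | with_reducible apply Int.iff | with_reducible apply Int.all | with_reducible apply Int.ex | with_reducible apply Int.ne | with_reducible apply Int.eq | with_reducible apply Int.mem | with_reducible apply Int.ltN | with_reducible apply Int.leN | with_reducible apply Int.subset | with_reducible apply Int.ev | with_reducible apply Int.agr | with_reducible apply Int.eqk | with_reducible apply Int.fil | with_reducible apply Int.ult | with_reducible apply Int.addv | with_reducible apply Int.lub | with_reducible apply Int.adm | with_reducible apply Int.chain | with_reducible apply IntF.fst | with_reducible apply IntF.snd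 | with_reducible apply IntF.val | with_reducible apply IntF.succ | with_reducible apply IntF.plus | with_reducible apply IntF.iadd | with_reducible apply IntF.sadd | with_reducible apply IntF.pair | with_reducible apply IntF.act | with_reducible apply IntF.orb | with_reducible apply IntF.lexmax | with_reducible apply IntF.gen | with_reducible apply IntF.psum | with_reducible apply IntF.app | with_reducible apply IntF.ite | with_reducible apply IntF.sep | with_reducible apply IntF.agrs | with_reducible apply IntF.da | with_reducible apply IntF.step | with_reducible ((refine Int.comp₂ ?_ ?_ ?_); assumption) | with_reducible ((refine Int.comp ?_ ?_); assumption) | with_reducible ((refine IntF.comp₂ ?_ ?_ ?_); assumption) | with_reducible ((refine IntF.comp ?_ ?_); assumption)))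
    let s : ZFA.IPow M ((ZFA.INat M × ZFA.INat M) × ZFA.INat M) := ZFA.sep M
      (fun q => iadd q.1.1 q.1.2 = q.2)
    have hs : ∀ x y z : M, TripleIn x y z (ZFA.code s) ↔ ∃ a b : ZFA.INat M, a.val = x ∧
        b.val = y ∧ (iadd a b).val = z := by
      intro x y z
      rw [triple_iff, mem_code]
      constructor
      · rintro ⟨⟨⟨a, b⟩, c⟩, h1, h2⟩
        have h3 := (ZFA.mem_sep hi).1 h1
        obtain ⟨h4, h5⟩ := ZFA.op_inj (h2 : ZFA.op (ZFA.op a.val b.val) c.val = _)
        obtain ⟨h6, h7⟩ := ZFA.op_inj h4
        refine ⟨a, b, h6, h7, ?_⟩
        have h8 : iadd a b = c := h3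
        rw [h8]
        exact h5
      · rintro ⟨a, b, rfl, rfl, rfl⟩
        exact ⟨((a, b), iadd a b), (ZFA.mem_sep hi).2 rfl, rfl⟩
    have h1 := h (ZFA.code s) (by
      intro x e hx he
      obtain ⟨n, rfl⟩ := isNat_iff.1 hx
      rw [empty_iff] at he
      subst he
      rw [hs]
      exact ⟨n, 0, rfl, rfl, by rw [iadd_zero]⟩) (by
      intro x y z y' z' h1 h2 h3
      rw [hs] at h1 ⊢
      obtain ⟨a, b, rfl, rfl, rfl⟩ := h1
      rw [succ_iff] at h2 h3
      subst h2 h3
      exact ⟨a, b.succ, rfl, rfl, by rw [iadd_succ]⟩)
    rw [hs] at h1
    obtain ⟨a', b', h2, h3, h4⟩ := h1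
    obtain rfl := ZFA.INat.ext h2
    obtain rfl := ZFA.INat.ext h3
    exact h4.symm
  · rintro rfl s h1 h2
    have hi : ZFA.Int M (fun q : (ZFA.INat M × ZFA.INat M) × ZFA.INat M =>
      Mem (ZFA.code q) s) := ⟨s, fun _ => Iff.rfl⟩
    refine ZFA.INat.ind (p := fun b => TripleIn a.val b.val (iadd a b).val s) ?_ ?_ ?_ b
    · have h3 : ZFA.IntF M (fun b : ZFA.INat M => ((a, b), iadd a b)) :=
        open Pool.Agent.Helper672.ZFA in (by repeat' (first | with_reducible exact IntF.fst' | with_reducible exact IntF.snd' | with_reducible exact IntF.id | with_reducible exact IntF.const _ | with_reducible exact Int.const _ | with_reducible assumption | with_reducible apply Int.and | with_reducible apply Int.or | with_reducible apply Int.not | with_reducible apply Int.imp | with_reducible apply Int.iff | with_reducible apply Int.all | with_reducible apply Int.ex | with_reducible apply Int.ne | with_reducible apply Int.eq | with_reducible apply Int.mem | with_reducible apply Int.ltN | with_reducible apply Int.leN | with_reducible apply Int.subset | with_reducible apply Int.ev | with_reducible apply Int.agr | with_reducible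 apply Int.eqk | with_reducible apply Int.fil | with_reducible apply Int.ult | with_reducible apply Int.addv | with_reducible apply Int.lub | with_reducible apply Int.adm | with_reducible apply Int.chain | with_reducible apply IntF.fst | with_reducible apply IntF.snd | with_reducible apply IntF.val | with_reducible apply IntF.succ | with_reducible apply IntF.plus | with_reducible apply IntF.iadd | with_reducible apply IntF.sadd | with_reducible apply IntF.pair | with_reducible apply IntF.act | with_reducible apply IntF.orb | with_reducible apply IntF.lexmax | with_reducible apply IntF.gen | with_reducible apply IntF.psum | with_reducible apply IntF.app | with_reducible apply IntF.ite | with_reducible apply IntF.sep | with_reducible apply IntF.agrs | with_reducible apply IntF.da | with_reducible apply IntF.step | with_reducible ((refine Int.comp₂ ?_ ?_ ?_); assumption) | with_reducible ((refine Int.comp ?_ ?_); assumption) | with_reducible ((refine IntF.comp₂ ?_ ?_ ?_); assumption) | with_reducible ((refine IntF.comp ?_ ?_); assumption)))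
      exact (ZFA.Int.comp hi h3).congr fun b => triple_iff.symm
    · rw [iadd_zero]
      exact h1 _ _ (isNat_iff.2 ⟨a, rfl⟩) (empty_iff.2 rfl)
    · intro b ih
      rw [iadd_succ]
      exact h2 _ _ _ _ _ ih (succ_iff.2 rfl) (succ_iff.2 rfl)

theorem isSum_pos {m n : Pos M} {k : M} :
    IsSum (ZFA.code (M := M) m) (ZFA.code (M := M) n) k ↔ k = ZFA.code (M := M) (sadd m n) :=
  isSum_iff (a := m.1) (b := n.1)

theorem isSub_iff {A : M} : IsSub A ↔ ∃ s : ZFA.IPow M (Pos M), ZFA.code s = A := by
  constructor
  · intro h
    exact exists_code fun w hw => isPos_iff.1 (h w hw)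
  · rintro ⟨s, rfl⟩ z hz
    obtain ⟨a, -, rfl⟩ := mem_code.1 hz
    exact pos_code a

theorem isFilter_code {F : Fam M} : IsFilter (ZFA.code (M := M) F) ↔ Fil F := by
  constructor
  · intro h
    refine ⟨?_, ?_, ?_, ?_⟩
    · obtain ⟨A, hA, -⟩ := h.univ
      obtain ⟨A', hA', -⟩ := mem_code.1 hA
      exact ⟨A', hA'⟩
    · intro A hA
      obtain ⟨z, hz⟩ := h.nonempty _ (code_mem.2 hA)
      obtain ⟨m, hm, -⟩ := mem_code.1 hz
      exact ⟨m, hm⟩
    · intro A C hA hAC
      refine code_mem.1 (h.superset _ _ (code_mem.2 hA) ?_ (isSub_iff.2 ⟨C, rfl⟩))
      intro z hz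
      obtain ⟨m, hm, rfl⟩ := mem_code.1 hz
      exact code_mem.2 (hAC m hm)
    · intro A C hA hC
      obtain ⟨D, hD, h1⟩ := h.inter _ _ (code_mem.2 hA) (code_mem.2 hC)
      obtain ⟨D', hD', rfl⟩ := mem_code.1 hD
      refine ⟨D', hD', fun m hm => ?_⟩
      have h2 := (h1 (ZFA.code m)).1 (code_mem.2 hm)
      exact ⟨code_mem.1 h2.1, code_mem.1 h2.2⟩
  · intro h
    refine ⟨?_, ?_, ?_, ?_, ?_⟩
    · intro A hA
      obtain ⟨A', -, rfl⟩ := mem_code.1 hA
      exact isSub_iff.2 ⟨A', rfl⟩
    · intro A hA
      obtain ⟨A', hA', rfl⟩ := mem_code.1 hA
      obtain ⟨m, hm⟩ := h.2.1 A' hA'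
      exact ⟨_, code_mem.2 hm⟩
    · have hi : ZFA.Int M (fun _ : Pos M => True) := open Pool.Agent.Helper672.ZFA in (by repeat' (first | with_reducible exact IntF.fst' | with_reducible exact IntF.snd' | with_reducible exact IntF.id | with_reducible exact IntF.const _ | with_reducible exact Int.const _ | with_reducible assumption | with_reducible apply Int.and | with_reducible apply Int.or | with_reducible apply Int.not | with_reducible apply Int.imp | with_reducible apply Int.iff | with_reducible apply Int.all | with_reducible apply Int.ex | with_reducible apply Int.ne | with_reducible apply Int.eq | with_reducible apply Int.mem | with_reducible apply Int.ltN | with_reducible apply Int.leN | with_reducible apply Int.subset | with_reducible apply Int.ev | with_reducible apply Int.agr | with_reducible apply Int.eqk | with_reducible apply Int.fil | with_reducible apply Int.ult | with_reducible apply Int.addv | with_reducible apply Int.lub | with_reducible apply Int.adm | with_reducible apply Int.chain | with_reducible apply IntF.fst | with_reducible apply IntF.snd | with_reducible apply IntF.val | with_reducible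 apply IntF.succ | with_reducible apply IntF.plus | with_reducible apply IntF.iadd | with_reducible apply IntF.sadd | with_reducible apply IntF.pair | with_reducible apply IntF.act | with_reducible apply IntF.orb | with_reducible apply IntF.lexmax | with_reducible apply IntF.gen | with_reducible apply IntF.psum | with_reducible apply IntF.app | with_reducible apply IntF.ite | with_reducible apply IntF.sep | with_reducible apply IntF.agrs | with_reducible apply IntF.da | with_reducible apply IntF.step | with_reducible ((refine Int.comp₂ ?_ ?_ ?_); assumption) | with_reducible ((refine Int.comp ?_ ?_); assumption) | with_reducible ((refine IntF.comp₂ ?_ ?_ ?_); assumption) | with_reducible ((refine IntF.comp ?_ ?_); assumption)))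
      refine ⟨ZFA.code (ZFA.sep M (fun _ : Pos M => True)), code_mem.2 ?_, fun z => ?_⟩
      · obtain ⟨A, hA⟩ := h.1
        exact h.2.2.1 A _ hA fun m _ => (ZFA.mem_sep hi).2 trivial
      · rw [mem_code, isPos_iff]
        exact ⟨fun ⟨a, _, ha⟩ => ⟨a, ha⟩, fun ⟨a, ha⟩ => ⟨a, (ZFA.mem_sep hi).2 trivial, ha⟩⟩
    · intro A C hA hAC hC
      obtain ⟨A', hA', rfl⟩ := mem_code.1 hA
      obtain ⟨C', rfl⟩ := isSub_iff.1 hC
      exact code_mem.2 (h.2.2.1 A' C' hA' fun m hm => code_mem.1 (hAC _ (code_mem.2 hm)))
    · intro A C hA hC
      obtain ⟨A', hA', rfl⟩ := mem_code.1 hA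
      obtain ⟨C', hC', rfl⟩ := mem_code.1 hC
      have hi : ZFA.Int M (fun m : Pos M => m ∈ A' ∧ m ∈ C') :=
        open Pool.Agent.Helper672.ZFA in (by repeat' (first | with_reducible exact IntF.fst' | with_reducible exact IntF.snd' | with_reducible exact IntF.id | with_reducible exact IntF.const _ | with_reducible exact Int.const _ | with_reducible assumption | with_reducible apply Int.and | with_reducible apply Int.or | with_reducible apply Int.not | with_reducible apply Int.imp | with_reducible apply Int.iff | with_reducible apply Int.all | with_reducible apply Int.ex | with_reducible apply Int.ne | with_reducible apply Int.eq | with_reducible apply Int.mem | with_reducible apply Int.ltN | with_reducible apply Int.leN | with_reducible apply Int.subset | with_reducible apply Int.ev | with_reducible apply Int.agr | with_reducible apply Int.eqk | with_reducible apply Int.fil | with_reducible apply Int.ult | with_reducible apply Int.addv | with_reducible apply Int.lub | with_reducible apply Int.adm | with_reducible apply Int.chain | with_reducible apply IntF.fst | with_reducible apply IntF.snd | with_reducible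 apply IntF.val | with_reducible apply IntF.succ | with_reducible apply IntF.plus | with_reducible apply IntF.iadd | with_reducible apply IntF.sadd | with_reducible apply IntF.pair | with_reducible apply IntF.act | with_reducible apply IntF.orb | with_reducible apply IntF.lexmax | with_reducible apply IntF.gen | with_reducible apply IntF.psum | with_reducible apply IntF.app | with_reducible apply IntF.ite | with_reducible apply IntF.sep | with_reducible apply IntF.agrs | with_reducible apply IntF.da | with_reducible apply IntF.step | with_reducible ((refine Int.comp₂ ?_ ?_ ?_); assumption) | with_reducible ((refine Int.comp ?_ ?_); assumption) | with_reducible ((refine IntF.comp₂ ?_ ?_ ?_); assumption) | with_reducible ((refine IntF.comp ?_ ?_); assumption)))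
      refine ⟨ZFA.code (ZFA.sep M (fun m : Pos M => m ∈ A' ∧ m ∈ C')), code_mem.2 ?_,
        fun z => ?_⟩
      · obtain ⟨D, hD, h1⟩ := h.2.2.2 A' C' hA' hC'
        exact h.2.2.1 D _ hD fun m hm => (ZFA.mem_sep hi).2 (h1 m hm)
      · constructor
        · intro hz
          obtain ⟨m, hm, rfl⟩ := mem_code.1 hz
          have h2 := (ZFA.mem_sep hi).1 hm
          exact ⟨code_mem.2 h2.1, code_mem.2 h2.2⟩
        · rintro ⟨h1, h2⟩
          obtain ⟨m, hm, rfl⟩ := mem_code.1 h1
          exact code_mem.2 ((ZFA.mem_sep hi).2 ⟨hm, code_mem.1 h2⟩)

theorem IsFilter.exists_code {F : M} (h : IsFilter F) : ∃ F' : Fam M, ZFA.code F' = F :=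
  AF.exists_code fun w hw => isSub_iff.1 (h.sub w hw)

theorem isSubset_code {F G : Fam M} :
    IsSubset (ZFA.code (M := M) F) (ZFA.code (M := M) G) ↔ F ⊆ G := by
  constructor
  · exact fun h A hA => code_mem.1 (h _ (code_mem.2 hA))
  · intro h A hA
    obtain ⟨A', hA', rfl⟩ := mem_code.1 hA
    exact code_mem.2 (h A' hA')

theorem isUltrafilter_code {V : Fam M} : IsUltrafilter (ZFA.code (M := M) V) ↔ Ult V := by
  constructor
  · rintro ⟨h1, h2⟩
    rw [isFilter_code] at h1
    refine ⟨h1, fun A => ?_⟩
    by_contra hcon
    push Not at hcon
    obtain ⟨h3, h4⟩ := hcon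
    have hi : ZFA.Int M (fun q : ZFA.INat M × Pos M => q.2 ∈ A) :=
      open Pool.Agent.Helper672.ZFA in (by repeat' (first | with_reducible exact IntF.fst' | with_reducible exact IntF.snd' | with_reducible exact IntF.id | with_reducible exact IntF.const _ | with_reducible exact Int.const _ | with_reducible assumption | with_reducible apply Int.and | with_reducible apply Int.or | with_reducible apply Int.not | with_reducible apply Int.imp | with_reducible apply Int.iff | with_reducible apply Int.all | with_reducible apply Int.ex | with_reducible apply Int.ne | with_reducible apply Int.eq | with_reducible apply Int.mem | with_reducible apply Int.ltN | with_reducible apply Int.leN | with_reducible apply Int.subset | with_reducible apply Int.ev | with_reducible apply Int.agr | with_reducible apply Int.eqk | with_reducible apply Int.fil | with_reducible apply Int.ult | with_reducible apply Int.addv | with_reducible apply Int.lub | with_reducible apply Int.adm | with_reducible apply Int.chain | with_reducible apply IntF.fst | with_reducible apply IntF.snd | with_reducible apply IntF.val | with_reducible apply IntF.succ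 | with_reducible apply IntF.plus | with_reducible apply IntF.iadd | with_reducible apply IntF.sadd | with_reducible apply IntF.pair | with_reducible apply IntF.act | with_reducible apply IntF.orb | with_reducible apply IntF.lexmax | with_reducible apply IntF.gen | with_reducible apply IntF.psum | with_reducible apply IntF.app | with_reducible apply IntF.ite | with_reducible apply IntF.sep | with_reducible apply IntF.agrs | with_reducible apply IntF.da | with_reducible apply IntF.step | with_reducible ((refine Int.comp₂ ?_ ?_ ?_); assumption) | with_reducible ((refine Int.comp ?_ ?_); assumption) | with_reducible ((refine IntF.comp₂ ?_ ?_ ?_); assumption) | with_reducible ((refine IntF.comp ?_ ?_); assumption)))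
    have h5 : Fil (gen V (ZFA.sep M (fun q : ZFA.INat M × Pos M => q.2 ∈ A))) := by
      refine fil_gen h1 (fun k l m _ h => ?_) fun C hC k => ?_
      · rw [ZFA.mem_sep hi] at h ⊢
        exact h
      · by_contra hcon
        apply h4
        refine ⟨C, hC, fun m hm hmA => hcon ⟨m, hm, (ZFA.mem_sep hi).2 hmA⟩⟩
    have h6 := h2 _ (isFilter_code.2 h5) (isSubset_code.2 (le_gen _ _))
    apply h3
    have h7 : gen V (ZFA.sep M (fun q : ZFA.INat M × Pos M => q.2 ∈ A)) = V := ZFA.ITy.inj h6
    rw [← h7]
    obtain ⟨C, hC⟩ := h1.1
    exact mem_gen.2 ⟨C, hC, 0, fun m _ hm => (ZFA.mem_sep hi).1 hm⟩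
  · intro h
    refine ⟨isFilter_code.2 h.1, fun W hW hVW => ?_⟩
    obtain ⟨W', rfl⟩ := hW.exists_code
    rw [isFilter_code] at hW
    rw [isSubset_code] at hVW
    refine congrArg ZFA.code (ZFA.IPow.ext' fun A => ⟨fun hA => ?_, fun hA => hVW A hA⟩)
    rcases h.2 A with h1 | ⟨C, hC, h1⟩
    · exact h1
    · obtain ⟨D, hD, h2⟩ := hW.2.2.2 A C hA (hVW C hC)
      obtain ⟨m, hm⟩ := hW.2.1 D hD
      exact absurd (h2 m hm).1 (h1 m (h2 m hm).2)

theorem isShift_iff {A : ZFA.IPow M (Pos M)} {n : Pos M} {D : M} :
    IsShift (ZFA.code (M := M) A) (ZFA.code (M := M) n) D ↔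
      D = ZFA.code (ZFA.sep M (fun m : Pos M => sadd m n ∈ A)) := by
  have hi : ZFA.Int M (fun m : Pos M => sadd m n ∈ A) := open Pool.Agent.Helper672.ZFA in (by repeat' (first | with_reducible exact IntF.fst' | with_reducible exact IntF.snd' | with_reducible exact IntF.id | with_reducible exact IntF.const _ | with_reducible exact Int.const _ | with_reducible assumption | with_reducible apply Int.and | with_reducible apply Int.or | with_reducible apply Int.not | with_reducible apply Int.imp | with_reducible apply Int.iff | with_reducible apply Int.all | with_reducible apply Int.ex | with_reducible apply Int.ne | with_reducible apply Int.eq | with_reducible apply Int.mem | with_reducible apply Int.ltN | with_reducible apply Int.leN | with_reducible apply Int.subset | with_reducible apply Int.ev | with_reducible apply Int.agr | with_reducible apply Int.eqk | with_reducible apply Int.fil | with_reducible apply Int.ult | with_reducible apply Int.addv | with_reducible apply Int.lub | with_reducible apply Int.adm | with_reducible apply Int.chain | with_reducible apply IntF.fst | with_reducible apply IntF.snd | with_reducible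 apply IntF.val | with_reducible apply IntF.succ | with_reducible apply IntF.plus | with_reducible apply IntF.iadd | with_reducible apply IntF.sadd | with_reducible apply IntF.pair | with_reducible apply IntF.act | with_reducible apply IntF.orb | with_reducible apply IntF.lexmax | with_reducible apply IntF.gen | with_reducible apply IntF.psum | with_reducible apply IntF.app | with_reducible apply IntF.ite | with_reducible apply IntF.sep | with_reducible apply IntF.agrs | with_reducible apply IntF.da | with_reducible apply IntF.step | with_reducible ((refine Int.comp₂ ?_ ?_ ?_); assumption) | with_reducible ((refine Int.comp ?_ ?_); assumption) | with_reducible ((refine IntF.comp₂ ?_ ?_ ?_); assumption) | with_reducible ((refine IntF.comp ?_ ?_); assumption)))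
  have h : ∀ z : M, Mem z (ZFA.code (ZFA.sep M (fun m : Pos M => sadd m n ∈ A))) ↔
      IsPos z ∧ ∃ k, IsSum z (ZFA.code (M := M) n) k ∧ Mem k (ZFA.code (M := M) A) := by
    intro z
    rw [mem_code]
    constructor
    · rintro ⟨m, hm, rfl⟩
      exact ⟨pos_code m, _, isSum_pos.2 rfl, code_mem.2 ((ZFA.mem_sep hi).1 hm)⟩
    · rintro ⟨h1, k, h2, h3⟩
      obtain ⟨m, rfl⟩ := isPos_iff.1 h1
      rw [isSum_pos] at h2
      subst h2
      exact ⟨m, (ZFA.mem_sep hi).2 (code_mem.1 h3), rfl⟩
  constructor
  · intro h1
    exact mext fun z => (h1 z).trans (h z).symm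
  · rintro rfl
    exact h

theorem inPseudoSum_code {A : ZFA.IPow M (Pos M)} {F V : Fam M} (hF : Fil F) (hV : Fil V) :
    InPseudoSum (ZFA.code (M := M) A) (ZFA.code (M := M) F) (ZFA.code (M := M) V) ↔
      Ev F (fun n => Ev V (fun m => sadd m n ∈ A)) := by
  have hi : ∀ n : Pos M, ZFA.Int M (fun m : Pos M => sadd m n ∈ A) := fun n =>
    open Pool.Agent.Helper672.ZFA in (by repeat' (first | with_reducible exact IntF.fst' | with_reducible exact IntF.snd' | with_reducible exact IntF.id | with_reducible exact IntF.const _ | with_reducible exact Int.const _ | with_reducible assumption | with_reducible apply Int.and | with_reducible apply Int.or | with_reducible apply Int.not | with_reducible apply Int.imp | with_reducible apply Int.iff | with_reducible apply Int.all | with_reducible apply Int.ex | with_reducible apply Int.ne | with_reducible apply Int.eq | with_reducible apply Int.mem | with_reducible apply Int.ltN | with_reducible apply Int.leN | with_reducible apply Int.subset | with_reducible apply Int.ev | with_reducible apply Int.agr | with_reducible apply Int.eqk | with_reducible apply Int.fil | with_reducible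 apply Int.ult | with_reducible apply Int.addv | with_reducible apply Int.lub | with_reducible apply Int.adm | with_reducible apply Int.chain | with_reducible apply IntF.fst | with_reducible apply IntF.snd | with_reducible apply IntF.val | with_reducible apply IntF.succ | with_reducible apply IntF.plus | with_reducible apply IntF.iadd | with_reducible apply IntF.sadd | with_reducible apply IntF.pair | with_reducible apply IntF.act | with_reducible apply IntF.orb | with_reducible apply IntF.lexmax | with_reducible apply IntF.gen | with_reducible apply IntF.psum | with_reducible apply IntF.app | with_reducible apply IntF.ite | with_reducible apply IntF.sep | with_reducible apply IntF.agrs | with_reducible apply IntF.da | with_reducible apply IntF.step | with_reducible ((refine Int.comp₂ ?_ ?_ ?_); assumption) | with_reducible ((refine Int.comp ?_ ?_); assumption) | with_reducible ((refine IntF.comp₂ ?_ ?_ ?_); assumption) | with_reducible ((refine IntF.comp ?_ ?_); assumption)))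
  have h1 : ∀ n : Pos M, (∃ D, IsShift (ZFA.code (M := M) A) (ZFA.code (M := M) n) D ∧
      Mem D (ZFA.code (M := M) V)) ↔ Ev V (fun m => sadd m n ∈ A) := by
    intro n
    constructor
    · rintro ⟨D, hD, h⟩
      rw [isShift_iff] at hD
      subst hD
      exact ⟨_, code_mem.1 h, fun m hm => (ZFA.mem_sep (hi n)).1 hm⟩
    · intro h
      exact ⟨_, isShift_iff.2 rfl, code_mem.2 (hV.sep_mem (hi n) h)⟩
  have hj : ZFA.Int M (fun n : Pos M => Ev V (fun m => sadd m n ∈ A)) :=
    open Pool.Agent.Helper672.ZFA in (by repeat' (first | with_reducible exact IntF.fst' | with_reducible exact IntF.snd' | with_reducible exact IntF.id | with_reducible exact IntF.const _ | with_reducible exact Int.const _ | with_reducible assumption | with_reducible apply Int.and | with_reducible apply Int.or | with_reducible apply Int.not | with_reducible apply Int.imp | with_reducible apply Int.iff | with_reducible apply Int.all | with_reducible apply Int.ex | with_reducible apply Int.ne | with_reducible apply Int.eq | with_reducible apply Int.mem | with_reducible apply Int.ltN | with_reducible apply Int.leN | with_reducible apply Int.subset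 | with_reducible apply Int.ev | with_reducible apply Int.agr | with_reducible apply Int.eqk | with_reducible apply Int.fil | with_reducible apply Int.ult | with_reducible apply Int.addv | with_reducible apply Int.lub | with_reducible apply Int.adm | with_reducible apply Int.chain | with_reducible apply IntF.fst | with_reducible apply IntF.snd | with_reducible apply IntF.val | with_reducible apply IntF.succ | with_reducible apply IntF.plus | with_reducible apply IntF.iadd | with_reducible apply IntF.sadd | with_reducible apply IntF.pair | with_reducible apply IntF.act | with_reducible apply IntF.orb | with_reducible apply IntF.lexmax | with_reducible apply IntF.gen | with_reducible apply IntF.psum | with_reducible apply IntF.app | with_reducible apply IntF.ite | with_reducible apply IntF.sep | with_reducible apply IntF.agrs | with_reducible apply IntF.da | with_reducible apply IntF.step | with_reducible ((refine Int.comp₂ ?_ ?_ ?_); assumption) | with_reducible ((refine Int.comp ?_ ?_); assumption) | with_reducible ((refine IntF.comp₂ ?_ ?_ ?_); assumption) | with_reducible ((refine IntF.comp ?_ ?_); assumption)))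
  constructor
  · rintro ⟨T, hT, h⟩
    obtain ⟨T', hT', rfl⟩ := mem_code.1 hT
    refine ⟨T', hT', fun n hn => ?_⟩
    exact (h1 n).1 ((h _).1 (code_mem.2 hn)).2
  · intro h
    refine ⟨ZFA.code (ZFA.sep M (fun n : Pos M => Ev V (fun m => sadd m n ∈ A))),
      code_mem.2 (hF.sep_mem hj h), fun z => ?_⟩
    constructor
    · intro hz
      obtain ⟨n, hn, rfl⟩ := mem_code.1 hz
      exact ⟨pos_code n, (h1 n).2 ((ZFA.mem_sep hj).1 hn)⟩
    · rintro ⟨h2, h3⟩
      obtain ⟨n, rfl⟩ := isPos_iff.1 h2
      exact code_mem.2 ((ZFA.mem_sep hj).2 ((h1 n).1 h3))

theorem isAdditive_code {F : Fam M} (hF : Fil F) :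
    IsAdditive (ZFA.code (M := M) F) ↔ Addv F := by
  constructor
  · intro h V hV hFV A hA
    exact (inPseudoSum_code hF hV.1).1 (h _ (isUltrafilter_code.2 hV) (isSubset_code.2 hFV) _
      (code_mem.2 hA))
  · intro h V hV hFV A hA
    obtain ⟨V', rfl⟩ := hV.1.exists_code
    obtain ⟨A', hA', rfl⟩ := mem_code.1 hA
    rw [isUltrafilter_code] at hV
    exact (inPseudoSum_code hF hV.1).2 (h V' hV (isSubset_code.1 hFV) A' hA')

theorem statementE : StatementE M := by
  intro F hF hA B hB
  obtain ⟨F', rfl⟩ := hF.exists_code
  obtain ⟨B', rfl⟩ := isSub_iff.1 hB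
  rw [isFilter_code] at hF
  rw [isAdditive_code hF] at hA
  obtain ⟨G, h1, h2, h3, h4⟩ := main hF hA B'
  refine ⟨ZFA.code G, isFilter_code.2 h1, (isAdditive_code h1).2 h2, isSubset_code.2 h3, ?_⟩
  rcases h4 with h4 | h4
  · exact Or.inl (code_mem.2 h4)
  · right
    have hi : ZFA.Int M (fun m : Pos M => ¬ m ∈ B') := open Pool.Agent.Helper672.ZFA in (by repeat' (first | with_reducible exact IntF.fst' | with_reducible exact IntF.snd' | with_reducible exact IntF.id | with_reducible exact IntF.const _ | with_reducible exact Int.const _ | with_reducible assumption | with_reducible apply Int.and | with_reducible apply Int.or | with_reducible apply Int.not | with_reducible apply Int.imp | with_reducible apply Int.iff | with_reducible apply Int.all | with_reducible apply Int.ex | with_reducible apply Int.ne | with_reducible apply Int.eq | with_reducible apply Int.mem | with_reducible apply Int.ltN | with_reducible apply Int.leN | with_reducible apply Int.subset | with_reducible apply Int.ev | with_reducible apply Int.agr | with_reducible apply Int.eqk | with_reducible apply Int.fil | with_reducible apply Int.ult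 | with_reducible apply Int.addv | with_reducible apply Int.lub | with_reducible apply Int.adm | with_reducible apply Int.chain | with_reducible apply IntF.fst | with_reducible apply IntF.snd | with_reducible apply IntF.val | with_reducible apply IntF.succ | with_reducible apply IntF.plus | with_reducible apply IntF.iadd | with_reducible apply IntF.sadd | with_reducible apply IntF.pair | with_reducible apply IntF.act | with_reducible apply IntF.orb | with_reducible apply IntF.lexmax | with_reducible apply IntF.gen | with_reducible apply IntF.psum | with_reducible apply IntF.app | with_reducible apply IntF.ite | with_reducible apply IntF.sep | with_reducible apply IntF.agrs | with_reducible apply IntF.da | with_reducible apply IntF.step | with_reducible ((refine Int.comp₂ ?_ ?_ ?_); assumption) | with_reducible ((refine Int.comp ?_ ?_); assumption) | with_reducible ((refine IntF.comp₂ ?_ ?_ ?_); assumption) | with_reducible ((refine IntF.comp ?_ ?_); assumption)))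
    refine ⟨ZFA.code (ZFA.sep M (fun m : Pos M => ¬ m ∈ B')), code_mem.2 (h1.sep_mem hi h4),
      fun z => ?_⟩
    rw [mem_code, isPos_iff]
    constructor
    · rintro ⟨m, hm, rfl⟩
      exact ⟨⟨m, rfl⟩, fun h => (ZFA.mem_sep hi).1 hm (code_mem.1 h)⟩
    · rintro ⟨⟨m, rfl⟩, h⟩
      exact ⟨m, (ZFA.mem_sep hi).2 fun h' => h (code_mem.2 h'), rfl⟩

end Pool.Agent.H629.AF
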